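import Mathlib

set_option autoImplicit false

namespace Pool.Agent.Lib.SHAI

open Filter Topology

section AutoCont

variable {A : Type*} [NormedRing A] [NormedAlgebra ℂ A] [CompleteSpace A]
variable {Y : Type*} [NormedAddCommGroup Y] [NormedSpace ℂ Y] [CompleteSpace Y]

/-- evaluation of a representation at a vector -/
noncomputable def ev (ψ : A →ₐ[ℂ] (Y →L[ℂ] Y)) (y : Y) : A →ₗ[ℂ] Y where
  toFun := fun a => ψ a y
  map_add' := fun a b => by simp
  map_smul' := fun c a => by simp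

/-- the left ideal of elements annihilating a vector -/
noncomputable def annih (ψ : A →ₐ[ℂ] (Y →L[ℂ] Y)) (y : Y) : Ideal A where
  carrier := {a | ψ a y = 0}
  add_mem' := fun {a b} ha hb => by
    simp only [Set.mem_ofPred_eq] at *
    simp [ha, hb]
  zero_mem' := by simp
  smul_mem' := fun c a ha => by
    simp only [Set.mem_ofPred_eq, smul_eq_mul] at *
    simp [ha]

omit [CompleteSpace Y] in
theorem exists_op {y : Y} (hy : y ≠ 0) (z : Y) : ∃ R : Y →L[ℂ] Y, R y = z := by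
  obtain ⟨g, -, hg⟩ := exists_dual_vector ℂ y (norm_ne_zero_iff.mpr hy)
  refine ⟨((‖y‖ : ℂ)⁻¹ • g).smulRight z, ?_⟩
  have : (‖y‖ : ℂ) ≠ 0 := by exact_mod_cast (norm_ne_zero_iff.mpr hy)
  simp [hg, this]

omit [CompleteSpace A] [CompleteSpace Y] in
theorem annih_isMaximal (ψ : A →ₐ[ℂ] (Y →L[ℂ] Y)) (hψ : Function.Surjective ψ) {y : Y}
    (hy : y ≠ 0) : (annih ψ y).IsMaximal := by
  rw [Ideal.isMaximal_iff]
  constructor
  · intro h
    apply hy
    have : ψ 1 y = 0 := h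
    simpa using this
  · intro J x hJ hx hxJ
    have hx' : ψ x y ≠ 0 := hx
    obtain ⟨R, hR⟩ := exists_op hx' y
    obtain ⟨c, hc⟩ := hψ R
    have h1 : c * x - 1 ∈ annih ψ y := by
      change ψ (c * x - 1) y = 0
      simp [hc, hR]
    have h2 : c * x ∈ J := J.mul_mem_left c hxJ
    have h3 := J.sub_mem h2 (hJ h1)
    simpa using h3

theorem annih_isClosed (ψ : A →ₐ[ℂ] (Y →L[ℂ] Y)) (hψ : Function.Surjective ψ) (y : Y) :
    IsClosed {a : A | ψ a y = 0} := by
  by_cases hy : y = 0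
  · subst hy
    simp
  · have := annih_isMaximal ψ hψ hy
    exact Ideal.IsMaximal.isClosed (I := annih ψ y)

omit [CompleteSpace Y] in
/-- separating functional for linearly independent sequences -/
theorem exists_sep {y : ℕ → Y} (hy : LinearIndependent ℂ y) (m : ℕ) :
    ∃ g : StrongDual ℂ Y, (∀ j < m, g (y j) = 0) ∧ g (y m) = 1 := by
  have hli : LinearIndependent ℂ (fun i : Fin (m + 1) => y i.val) :=
    hy.comp _ Fin.val_injective
  let b := Module.Basis.span hli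
  let W := Submodule.span ℂ (Set.range (fun i : Fin (m + 1) => y i.val))
  have : FiniteDimensional ℂ W := FiniteDimensional.span_of_finite ℂ (Set.finite_range _)
  let c : W →ₗ[ℂ] ℂ := b.coord (Fin.last m)
  let c' : StrongDual ℂ W := LinearMap.toContinuousLinearMap c
  obtain ⟨g, hg, -⟩ := exists_extension_norm_eq W c'
  have key : ∀ i : Fin (m + 1), g (y i.val) = if i = Fin.last m then 1 else 0 := by
    intro i
    have h1 : y i.val = ((b i : W) : Y) := by
      simp [b, Module.Basis.span_apply]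
    rw [h1, hg]
    change b.coord (Fin.last m) (b i) = _
    rw [Module.Basis.coord_apply, Module.Basis.repr_self, Finsupp.single_apply]
  refine ⟨g, ?_, ?_⟩
  · intro j hj
    have := key ⟨j, by omega⟩
    rw [if_neg] at this
    · exact this
    · intro h
      have := congrArg Fin.val h
      simp at this
      omega
  · simpa using key (Fin.last m)

omit [CompleteSpace A] [CompleteSpace Y] in
theorem ev_bound_transfer (ψ : A →ₐ[ℂ] (Y →L[ℂ] Y)) (hψ : Function.Surjective ψ) {z : Y}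
    (hz : z ≠ 0) (h : ∃ C : ℝ, ∀ a, ‖ψ a z‖ ≤ C * ‖a‖) (y : Y) :
    ∃ C : ℝ, ∀ a, ‖ψ a y‖ ≤ C * ‖a‖ := by
  obtain ⟨C, hC⟩ := h
  obtain ⟨R, hR⟩ := exists_op hz y
  obtain ⟨b, hb⟩ := hψ R
  refine ⟨|C| * ‖b‖, fun a => ?_⟩
  have h1 : ψ a y = ψ (a * b) z := by simp [hb, hR]
  rw [h1]
  calc ‖ψ (a * b) z‖ ≤ C * ‖a * b‖ := hC _
    _ ≤ |C| * ‖a * b‖ := by gcongr; exact le_abs_self C
    _ ≤ |C| * (‖a‖ * ‖b‖) := by gcongr; exact norm_mul_le a b
    _ = |C| * ‖b‖ * ‖a‖ := by ring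

theorem ev_bound_findim (ψ : A →ₐ[ℂ] (Y →L[ℂ] Y)) (hψ : Function.Surjective ψ)
    [FiniteDimensional ℂ Y] (y : Y) :
    ∃ C : ℝ, ∀ a, ‖ψ a y‖ ≤ C * ‖a‖ := by
  have hcl : IsClosed ((LinearMap.ker (ev ψ y) : Submodule ℂ A) : Set A) := by
    have h0 := annih_isClosed ψ hψ y
    have h1 : ((LinearMap.ker (ev ψ y) : Submodule ℂ A) : Set A) = {a : A | ψ a y = 0} := by
      ext a
      simp [ev]
    rw [h1]
    exact h0
  have : FiniteDimensional ℂ (A ⧸ LinearMap.ker (ev ψ y)) :=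
    LinearEquiv.finiteDimensional (ev ψ y).quotKerEquivRange.symm
  have : T2Space (A ⧸ LinearMap.ker (ev ψ y)) := by
    have := hcl
    infer_instance
  let q : (A ⧸ LinearMap.ker (ev ψ y)) →ₗ[ℂ] Y :=
    (LinearMap.ker (ev ψ y)).liftQ (ev ψ y) le_rfl
  have hq : Continuous q := LinearMap.continuous_of_finiteDimensional q
  have hm : Continuous (fun a : A => (LinearMap.ker (ev ψ y)).mkQ a) := continuous_quot_mk
  have hcont : Continuous (ev ψ y) := by
    have : (ev ψ y : A → Y) = q ∘ (fun a : A => (LinearMap.ker (ev ψ y)).mkQ a) := by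
      ext a
      simp [q]
    rw [this]
    exact hq.comp hm
  let L : A →L[ℂ] Y := ⟨ev ψ y, hcont⟩
  exact ⟨‖L‖, fun a => L.le_opNorm a⟩

theorem ev_bound (ψ : A →ₐ[ℂ] (Y →L[ℂ] Y)) (hψ : Function.Surjective ψ) (y : Y) :
    ∃ C : ℝ, ∀ a, ‖ψ a y‖ ≤ C * ‖a‖ := by
  by_cases hfd : FiniteDimensional ℂ Y
  · exact ev_bound_findim ψ hψ y
  by_contra hcon
  have hall : ∀ z : Y, z ≠ 0 → ¬ ∃ C : ℝ, ∀ a, ‖ψ a z‖ ≤ C * ‖a‖ := fun z hz h =>
    hcon (ev_bound_transfer ψ hψ hz h y)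
  obtain ⟨v, hv⟩ : ∃ v : ℕ → Y, LinearIndependent ℂ v := by
    let b := Module.Basis.ofVectorSpace ℂ Y
    have hinf : Infinite (Module.Basis.ofVectorSpaceIndex ℂ Y) := by
      rw [← not_finite_iff_infinite]
      intro hf
      exact hfd (Module.Finite.of_basis b)
    exact ⟨fun n => b (Infinite.natEmbedding _ n),
      b.linearIndependent.comp _ (Infinite.natEmbedding _).injective⟩
  have hpick : ∀ (m : ℕ) (b : A), ∃ a : A, ‖a‖ ≤ (1 / 2 : ℝ) ^ m ∧ (∀ j < m, ψ a (v j) = 0) ∧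
      m * ‖v m‖ + ‖ψ b (v m)‖ ≤ ‖ψ a (v m)‖ := by
    intro m b
    obtain ⟨g, hg0, hg1⟩ := exists_sep hv m
    obtain ⟨q, hq⟩ := hψ (g.smulRight (v m))
    have hvm : v m ≠ 0 := hv.ne_zero m
    have hnb := hall (v m) hvm
    push Not at hnb
    have hq0 : 0 ≤ ‖q‖ := norm_nonneg q
    obtain ⟨c, hc⟩ := hnb ((m * ‖v m‖ + ‖ψ b (v m)‖) * (‖q‖ + 1) * 2 ^ m)
    have hc0 : c ≠ 0 := by
      rintro rfl
      simp at hc
    have hcn : 0 < ‖c‖ := norm_pos_iff.mpr hc0
    let t : ℝ := (1 / 2 : ℝ) ^ m / (‖c‖ * (‖q‖ + 1))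
    have ht : 0 < t := by positivity
    refine ⟨(t : ℂ) • (c * q), ?_, ?_, ?_⟩
    · rw [norm_smul, Complex.norm_real, Real.norm_of_nonneg ht.le]
      calc t * ‖c * q‖ ≤ t * (‖c‖ * ‖q‖) := by gcongr; exact norm_mul_le c q
        _ ≤ t * (‖c‖ * (‖q‖ + 1)) := by gcongr; linarith
        _ = (1 / 2 : ℝ) ^ m := by
          simp only [t]
          field_simp
    · intro j hj
      rw [map_smul, ContinuousLinearMap.smul_apply, map_mul, hq]
      simp [hg0 j hj]
    · have h1 : ψ ((t : ℂ) • (c * q)) (v m) = (t : ℂ) • ψ c (v m) := by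
        rw [map_smul, ContinuousLinearMap.smul_apply, map_mul, hq]
        simp [hg1]
      rw [h1, norm_smul, Complex.norm_real, Real.norm_of_nonneg ht.le]
      calc m * ‖v m‖ + ‖ψ b (v m)‖
          = t * ((m * ‖v m‖ + ‖ψ b (v m)‖) * (‖q‖ + 1) * 2 ^ m * ‖c‖) := by
            simp only [t, one_div, inv_pow]
            field_simp
        _ ≤ t * ‖ψ c (v m)‖ := by gcongr
  choose pick hp1 hp2 hp3 using hpick
  let s : ℕ → A := fun n => Nat.rec 0 (fun m b => b + pick m b) n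
  have hs0 : s 0 = 0 := rfl
  have hs1 : ∀ n, s (n + 1) = s n + pick n (s n) := fun n => rfl
  let a : ℕ → A := fun n => pick n (s n)
  have hsum : ∀ n, s n = ∑ i ∈ Finset.range n, a i := by
    intro n
    induction n with
    | zero => simp [hs0]
    | succ n ih => rw [hs1, Finset.sum_range_succ, ← ih]
  have hsummable : Summable a := by
    refine Summable.of_norm_bounded (g := fun n => (1 / 2 : ℝ) ^ n) summable_geometric_two ?_
    intro n
    exact hp1 n (s n)
  have htend : Tendsto s atTop (𝓝 (∑' n, a n)) := by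
    have := hsummable.hasSum.tendsto_sum_nat
    refine this.congr ?_
    intro n
    exact (hsum n).symm
  set z := ∑' n, a n with hz
  have hker : ∀ m n, m + 1 ≤ n → ψ (s n) (v m) = ψ (s (m + 1)) (v m) := by
    intro m n hmn
    induction n, hmn using Nat.le_induction with
    | base => rfl
    | succ n hn ih =>
      rw [hs1, map_add, ContinuousLinearMap.add_apply, ih, hp2 n (s n) m (by omega), add_zero]
  have hfin : ∀ m, ψ z (v m) = ψ (s (m + 1)) (v m) := by
    intro m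
    have hcl := annih_isClosed ψ hψ (v m)
    have h1 : Tendsto (fun n => s n - s (m + 1)) atTop (𝓝 (z - s (m + 1))) :=
      htend.sub_const _
    have h2 : z - s (m + 1) ∈ {a : A | ψ a (v m) = 0} := by
      refine hcl.mem_of_tendsto h1 ?_
      filter_upwards [eventually_ge_atTop (m + 1)] with n hn
      change ψ (s n - s (m + 1)) (v m) = 0
      rw [map_sub, ContinuousLinearMap.sub_apply, hker m n hn, sub_self]
    have h3 : ψ (z - s (m + 1)) (v m) = 0 := h2
    rw [map_sub, ContinuousLinearMap.sub_apply, sub_eq_zero] at h3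
    exact h3
  have hlow : ∀ m : ℕ, m * ‖v m‖ ≤ ‖ψ z‖ * ‖v m‖ := by
    intro m
    have h1 := hp3 m (s m)
    have h2 : ‖ψ (pick m (s m)) (v m)‖ ≤ ‖ψ z (v m)‖ + ‖ψ (s m) (v m)‖ := by
      have : ψ (pick m (s m)) (v m) = ψ z (v m) - ψ (s m) (v m) := by
        rw [hfin, hs1, map_add, ContinuousLinearMap.add_apply]
        abel
      rw [this]
      exact norm_sub_le _ _
    have h3 : ‖ψ z (v m)‖ ≤ ‖ψ z‖ * ‖v m‖ := (ψ z).le_opNorm _
    linarith
  obtain ⟨m, hm⟩ := exists_nat_gt ‖ψ z‖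
  have hvm : 0 < ‖v m‖ := norm_pos_iff.mpr (hv.ne_zero m)
  have := le_of_mul_le_mul_right (hlow m) hvm
  linarith

/-- Automatic continuity of surjective homomorphisms onto the operators on a Banach space. -/
theorem exists_bound (ψ : A →ₐ[ℂ] (Y →L[ℂ] Y)) (hψ : Function.Surjective ψ) (S : Set A)
    {M : ℝ} (hS : ∀ a ∈ S, ‖a‖ ≤ M) :
    ∃ C : ℝ, ∀ a ∈ S, ‖ψ a‖ ≤ C := by
  have h := banach_steinhaus (g := fun a : S => ψ a) (𝕜 := ℂ) (𝕜₂ := ℂ) ?_
  · obtain ⟨C, hC⟩ := h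
    exact ⟨C, fun a ha => hC ⟨a, ha⟩⟩
  · intro y
    obtain ⟨C, hC⟩ := ev_bound ψ hψ y
    refine ⟨|C| * M, fun a => ?_⟩
    calc ‖ψ a y‖ ≤ C * ‖(a : A)‖ := hC _
      _ ≤ |C| * ‖(a : A)‖ := by gcongr; exact le_abs_self C
      _ ≤ |C| * M := by gcongr; exact hS a a.2

end AutoCont

end Pool.Agent.Lib.SHAI
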