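import Mathlib

set_option autoImplicit false

namespace Pool.Agent.Lib.SHAIg

open Filter Topology

section Combinatorics

/-- the set of codes of initial segments of a binary sequence -/
def branch (x : ℕ → Bool) : Set ℕ :=
  Set.range (fun n => Encodable.encode ((List.range n).map x))

theorem branch_injective (x : ℕ → Bool) :
    Function.Injective (fun n => Encodable.encode ((List.range n).map x)) := by
  intro m n h
  have h1 : (List.range m).map x = (List.range n).map x := Encodable.encode_injective h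
  have h2 := congrArg List.length h1
  simpa using h2

theorem branch_infinite (x : ℕ → Bool) : (branch x).Infinite :=
  Set.infinite_range_of_injective (branch_injective x)

theorem branch_inter_finite {x x' : ℕ → Bool} (h : x ≠ x') :
    (branch x ∩ branch x').Finite := by
  obtain ⟨k, hk⟩ := Function.ne_iff.mp h
  have hsub : branch x ∩ branch x' ⊆
      (fun n => Encodable.encode ((List.range n).map x)) '' (Set.Iic k) := by
    rintro m ⟨⟨n, rfl⟩, ⟨n', hn'⟩⟩
    have h1 : (List.range n').map x' = (List.range n).map x := Encodable.encode_injective hn'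
    have h2 : n' = n := by simpa using congrArg List.length h1
    subst h2
    refine ⟨n', ?_, rfl⟩
    by_contra hlt
    simp only [Set.mem_Iic, not_le] at hlt
    have h3 := List.map_inj_left.mp h1 k (List.mem_range.mpr hlt)
    exact hk h3.symm
  exact (Set.finite_Iic k |>.image _).subset hsub

/-- the independent family associated with the branches -/
def indep (x : ℕ → Bool) : Set (Finset ℕ) := {F | ∃ m ∈ F, m ∈ branch x}

theorem exists_ultrafilter (G : Set (ℕ → Bool)) :
    ∃ U : Ultrafilter (Finset ℕ), ∀ x, (x ∈ G → indep x ∈ U) ∧ (x ∉ G → indep x ∉ U) := by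
  let S : Set (Set (Finset ℕ)) := {s | (∃ x ∈ G, s = indep x) ∨ (∃ x, x ∉ G ∧ s = (indep x)ᶜ)}
  suffices hFIP : ∀ T : Finset (Set (Finset ℕ)), (↑T : Set (Set (Finset ℕ))) ⊆ S →
      (⋂₀ (↑T : Set (Set (Finset ℕ)))).Nonempty by
    obtain ⟨U, hU⟩ := Ultrafilter.exists_ultrafilter_of_finite_inter_nonempty S hFIP
    refine ⟨U, fun x => ⟨fun hx => hU (Or.inl ⟨x, hx, rfl⟩), fun hx hmem => ?_⟩⟩
    have : (indep x)ᶜ ∈ U := hU (Or.inr ⟨x, hx, rfl⟩)
    exact (Ultrafilter.compl_mem_iff_notMem.mp this) hmem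
  · intro T hT
    classical
    -- choose representatives
    have hrep : ∀ s ∈ T, ∃ x : ℕ → Bool, (x ∈ G ∧ s = indep x) ∨ (x ∉ G ∧ s = (indep x)ᶜ) := by
      intro s hs
      rcases hT hs with ⟨x, hx, rfl⟩ | ⟨x, hx, rfl⟩
      · exact ⟨x, Or.inl ⟨hx, rfl⟩⟩
      · exact ⟨x, Or.inr ⟨hx, rfl⟩⟩
    choose! r hr using hrep
    let P : Finset (ℕ → Bool) := (T.image r).filter (fun x => x ∈ G)
    let N : Finset (ℕ → Bool) := (T.image r).filter (fun x => x ∉ G)
    have hpt : ∀ x ∈ P, ∃ m, m ∈ branch x ∧ ∀ x' ∈ N, m ∉ branch x' := by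
      intro x hx
      have hxG : x ∈ G := (Finset.mem_filter.mp hx).2
      have hfin : (branch x ∩ ⋃ x' ∈ N, branch x').Finite := by
        rw [Set.inter_iUnion₂]
        refine Set.Finite.biUnion N.finite_toSet ?_
        intro x' hx'
        apply branch_inter_finite
        rintro rfl
        exact (Finset.mem_filter.mp hx').2 hxG
      obtain ⟨m, hm, hm'⟩ := (branch_infinite x).exists_notMem_finite hfin
      refine ⟨m, hm, fun x' hx' hmem => hm' ⟨hm, ?_⟩⟩
      simp only [Set.mem_iUnion]
      exact ⟨x', hx', hmem⟩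
    choose! pt hpt1 hpt2 using hpt
    refine ⟨P.image pt, ?_⟩
    rw [Set.mem_sInter]
    intro s hs
    have hs' : s ∈ T := hs
    rcases hr s hs' with ⟨hG, hse⟩ | ⟨hG, hse⟩
    · have hP : r s ∈ P := Finset.mem_filter.mpr ⟨Finset.mem_image_of_mem r hs', hG⟩
      rw [hse]
      exact ⟨pt (r s), Finset.mem_image_of_mem _ hP, hpt1 _ hP⟩
    · have hN : r s ∈ N := Finset.mem_filter.mpr ⟨Finset.mem_image_of_mem r hs', hG⟩
      rw [hse]
      rintro ⟨m, hm, hmb⟩
      obtain ⟨x, hx, rfl⟩ := Finset.mem_image.mp hm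
      exact hpt2 x hx _ hN hmb

end Combinatorics

section Key

variable {𝕜 : Type} [RCLike 𝕜] {Y : Type*} [NormedAddCommGroup Y] [NormedSpace 𝕜 Y]

/-- a bounded Boolean family of idempotents on a space -/
structure BoolIdem (e : Set ℕ → (Y →L[𝕜] Y)) (C : ℝ) : Prop where
  inter : ∀ S T, e (S ∩ T) = e S * e T
  union : ∀ S T, Disjoint S T → e (S ∪ T) = e S + e T
  bdd : ∀ S, ‖e S‖ ≤ C
  sing : ∀ n, e {n} = 0

variable {e : Set ℕ → (Y →L[𝕜] Y)} {C : ℝ}

theorem BoolIdem.empty (he : BoolIdem e C) : e ∅ = 0 := by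
  have := he.union ∅ ∅ (by simp)
  simpa using this

theorem BoolIdem.finite (he : BoolIdem e C) {S : Set ℕ} (hS : S.Finite) : e S = 0 := by
  induction S, hS using Set.Finite.induction_on with
  | empty => exact he.empty
  | @insert a s ha hs ih =>
    rw [Set.insert_eq, he.union _ _ (by simpa using ha), he.sing, ih, add_zero]

theorem BoolIdem.diff (he : BoolIdem e C) {S T : Set ℕ} (h : (S ∩ T).Finite) :
    e (S \ T) = e S := by
  have h1 : e S = e (S \ T) + e (S ∩ T) := by
    rw [← he.union _ _ ?_]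
    · rw [Set.sdiff_union_inter]
    · exact Set.disjoint_sdiff_inter
  rw [h1, he.finite h, add_zero]

theorem BoolIdem.union' (he : BoolIdem e C) {S T : Set ℕ} (h : (S ∩ T).Finite) :
    e (S ∪ T) = e S + e T := by
  rw [← Set.sdiff_union_self, he.union _ _ Set.disjoint_sdiff_left, he.diff h]

theorem BoolIdem.mul_of_finite (he : BoolIdem e C) {S T : Set ℕ} (h : (S ∩ T).Finite) :
    e S * e T = 0 := by
  rw [← he.inter, he.finite h]

theorem BoolIdem.sum_branch (he : BoolIdem e C) (F : Finset (ℕ → Bool)) :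
    e (⋃ x ∈ F, branch x) = ∑ x ∈ F, e (branch x) := by
  classical
  induction F using Finset.induction_on with
  | empty => simpa using he.empty
  | insert a s ha ih =>
    rw [Finset.sum_insert ha, Finset.set_biUnion_insert, he.union', ih]
    rw [Set.inter_iUnion₂]
    refine Set.Finite.biUnion s.finite_toSet ?_
    intro x hx
    apply branch_inter_finite
    rintro rfl
    exact ha hx

theorem BoolIdem.no_big_disjoint (he : BoolIdem e C)
    (hcard : Cardinal.mk (StrongDual 𝕜 Y) ≤ Cardinal.continuum)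
    (B : ℕ → Set ℕ) (hB : ∀ i j, i ≠ j → Disjoint (B i) (B j)) (y : Y) (ε : ℝ) (hε : 0 < ε)
    (hb : ∀ k, ε ≤ ‖e (B k) y‖) : False := by
  classical
  have hg : ∀ k, ∃ g : StrongDual 𝕜 Y, ‖g‖ ≤ 1 ∧ g (e (B k) y) = ‖e (B k) y‖ := fun k =>
    exists_dual_vector'' 𝕜 (e (B k) y)
  choose g hg1 hg2 using hg
  let c : Finset ℕ → ℕ := Encodable.encode
  have hc : Function.Injective c := Encodable.encode_injective
  let φ : Finset ℕ → StrongDual 𝕜 Y := fun F => (g (c F)).comp (e (B (c F)))
  have hφ : ∀ F, ‖φ F‖ ≤ C := by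
    intro F
    calc ‖φ F‖ ≤ ‖g (c F)‖ * ‖e (B (c F))‖ := ContinuousLinearMap.opNorm_comp_le _ _
      _ ≤ 1 * ‖e (B (c F))‖ := by gcongr; exact hg1 _
      _ ≤ C := by rw [one_mul]; exact he.bdd _
  -- test vectors
  let w : Set (Finset ℕ) → Y := fun M => e (⋃ F ∈ M, B (c F)) y
  have hval : ∀ M F, φ F (w M) = if F ∈ M then ((‖e (B (c F)) y‖ : ℝ) : 𝕜) else 0 := by
    intro M F
    have h1 : φ F (w M) = g (c F) (e (B (c F) ∩ ⋃ F ∈ M, B (c F)) y) := by
      change g (c F) (e (B (c F)) (e (⋃ F ∈ M, B (c F)) y)) = _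
      rw [he.inter]
      rfl
    rw [h1]
    by_cases hF : F ∈ M
    · have h2 : B (c F) ∩ ⋃ F ∈ M, B (c F) = B (c F) := by
        apply Set.inter_eq_left.mpr
        exact Set.subset_biUnion_of_mem (u := fun F => B (c F)) hF
      rw [h2, if_pos hF, hg2]
    · have h2 : B (c F) ∩ ⋃ F ∈ M, B (c F) = ∅ := by
        rw [← Set.disjoint_iff_inter_eq_empty, Set.disjoint_iUnion₂_right]
        intro F' hF'
        apply hB
        intro h
        exact hF ((hc h) ▸ hF')
      rw [h2, if_neg hF, he.empty]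
      simp
  have hlim : ∀ G : Set (ℕ → Bool), ∃ f : StrongDual 𝕜 Y,
      ∀ x, (x ∈ G → f (w (indep x)) ≠ 0) ∧ (x ∉ G → f (w (indep x)) = 0) := by
    intro G
    obtain ⟨U, hU⟩ := exists_ultrafilter G
    have hcomp := WeakDual.isCompact_closedBall (𝕜 := 𝕜) (E := Y) 0 C
    have hle : ((U.map (fun F => StrongDual.toWeakDual (φ F)) : Ultrafilter (WeakDual 𝕜 Y)) :
        Filter (WeakDual 𝕜 Y)) ≤ 𝓟 (WeakDual.toStrongDual ⁻¹' Metric.closedBall 0 C) := by
      rw [le_principal_iff, Ultrafilter.mem_coe, Ultrafilter.mem_map]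
      refine Filter.mem_of_superset Filter.univ_mem ?_
      intro F _
      simpa using hφ F
    obtain ⟨f, -, hf⟩ := hcomp.ultrafilter_le_nhds _ hle
    have hf' : ∀ z : Y, Tendsto (fun F => φ F z) U (𝓝 (f z)) := by
      intro z
      have h1 : Tendsto (fun F => StrongDual.toWeakDual (φ F)) U (𝓝 f) := hf
      have h2 := (WeakDual.eval_continuous z).tendsto f
      exact h2.comp h1
    refine ⟨WeakDual.toStrongDual f, fun x => ⟨fun hx h0 => ?_, fun hx => ?_⟩⟩
    · have h1 := (hf' (w (indep x))).norm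
      have h2 : ε ≤ ‖f (w (indep x))‖ := by
        refine ge_of_tendsto h1 ?_
        filter_upwards [(hU x).1 hx] with F hF
        rw [hval, if_pos hF, RCLike.norm_ofReal, abs_of_nonneg (norm_nonneg _)]
        exact hb _
      have h3 : f (w (indep x)) = 0 := h0
      rw [h3, norm_zero] at h2
      linarith
    · have h1 := hf' (w (indep x))
      have h2 : Tendsto (fun F => φ F (w (indep x))) U (𝓝 0) := by
        refine tendsto_const_nhds.congr' ?_
        have h3 : (indep x)ᶜ ∈ U := Ultrafilter.compl_mem_iff_notMem.mpr ((hU x).2 hx)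
        filter_upwards [h3] with F hF
        rw [hval, if_neg hF]
      exact tendsto_nhds_unique h1 h2
  choose f hf using hlim
  have hinj : Function.Injective f := by
    intro G G' hGG'
    ext x
    constructor
    · intro hx
      by_contra hx'
      exact (hf G x).1 hx (hGG' ▸ (hf G' x).2 hx')
    · intro hx
      by_contra hx'
      exact (hf G' x).1 hx (hGG' ▸ (hf G x).2 hx')
  have h1 := Cardinal.lift_mk_le_lift_mk_of_injective hinj
  have h2 : Cardinal.mk (Set (ℕ → Bool)) = 2 ^ Cardinal.continuum := by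
    rw [Cardinal.mk_set]
    congr 1
    simp
  have h3 := (h1.trans (Cardinal.lift_le.mpr hcard))
  rw [h2, Cardinal.lift_two_power, Cardinal.lift_continuum, Cardinal.lift_continuum] at h3
  exact absurd h3 (not_le.mpr (Cardinal.cantor _))

theorem BoolIdem.summable [CompleteSpace Y] (he : BoolIdem e C)
    (hcard : Cardinal.mk (StrongDual 𝕜 Y) ≤ Cardinal.continuum) (y : Y) :
    Summable (fun x => e (branch x) y) := by
  classical
  rw [summable_iff_vanishing_norm]
  by_contra hcon
  push Not at hcon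
  obtain ⟨ε, hε, hcon⟩ := hcon
  choose t ht1 ht2 using hcon
  let S : ℕ → Finset (ℕ → Bool) := fun n => Nat.rec ∅ (fun _ b => b ∪ t b) n
  have hS1 : ∀ n, S (n + 1) = S n ∪ t (S n) := fun n => rfl
  have hmono : Monotone S := monotone_nat_of_le_succ (fun n => by
    rw [hS1]; exact Finset.subset_union_left)
  let T : ℕ → Finset (ℕ → Bool) := fun n => t (S n)
  have hTS : ∀ n, T n ⊆ S (n + 1) := fun n => by
    rw [hS1]; exact Finset.subset_union_right
  have hTdisj : ∀ i j, i < j → Disjoint (T i) (T j) := by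
    intro i j hij
    have h1 : T i ⊆ S j := (hTS i).trans (hmono (Nat.succ_le_of_lt hij))
    exact (Finset.disjoint_of_subset_right h1 (ht1 (S j))).symm
  let B : ℕ → Set ℕ := fun n => ⋃ x ∈ T n, branch x
  have hBfin : ∀ i j, i < j → (B j ∩ B i).Finite := by
    intro i j hij
    have : B j ∩ B i = ⋃ x ∈ T j, ⋃ x' ∈ T i, (branch x ∩ branch x') := by
      ext m
      simp only [B, Set.mem_inter_iff, Set.mem_iUnion]
      constructor
      · rintro ⟨⟨x, hx, hmx⟩, ⟨x', hx', hmx'⟩⟩
        exact ⟨x, hx, x', hx', hmx, hmx'⟩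
      · rintro ⟨x, hx, x', hx', hmx, hmx'⟩
        exact ⟨⟨x, hx, hmx⟩, ⟨x', hx', hmx'⟩⟩
    rw [this]
    refine Set.Finite.biUnion (T j).finite_toSet (fun x hx => ?_)
    refine Set.Finite.biUnion (T i).finite_toSet (fun x' hx' => ?_)
    apply branch_inter_finite
    rintro rfl
    exact Finset.disjoint_left.mp (hTdisj i j hij) hx' hx
  let B' : ℕ → Set ℕ := fun n => B n \ ⋃ i ∈ Finset.range n, B i
  have hB'disj : ∀ i j, i ≠ j → Disjoint (B' i) (B' j) := by
    have aux : ∀ i j, i < j → Disjoint (B' i) (B' j) := by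
      intro i j hij
      refine Set.disjoint_left.mpr ?_
      intro m hm hm'
      apply hm'.2
      simp only [Set.mem_iUnion]
      exact ⟨i, Finset.mem_range.mpr hij, hm.1⟩
    intro i j hij
    rcases lt_or_gt_of_ne hij with h | h
    · exact aux i j h
    · exact (aux j i h).symm
  have hB'e : ∀ n, e (B' n) = e (B n) := by
    intro n
    apply he.diff
    rw [Set.inter_iUnion₂]
    refine Set.Finite.biUnion (Finset.range n).finite_toSet (fun i hi => ?_)
    exact hBfin i n (Finset.mem_range.mp hi)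
  refine he.no_big_disjoint hcard B' hB'disj y ε hε ?_
  intro n
  rw [hB'e]
  have h1 : e (B n) y = ∑ x ∈ T n, e (branch x) y := by
    rw [he.sum_branch]
    simp
  rw [h1]
  exact ht2 (S n)

theorem BoolIdem.exists_zero [CompleteSpace Y] (he : BoolIdem e C)
    (hcard : Cardinal.mk (StrongDual 𝕜 Y) ≤ Cardinal.continuum)
    (hcard' : Cardinal.mk (Y →L[𝕜] Y) ≤ Cardinal.continuum) :
    ∃ S : Set ℕ, S.Infinite ∧ e S = 0 := by
  classical
  by_contra hcon
  push Not at hcon
  have hne : ∀ x, ∃ z, e (branch x) z ≠ 0 := by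
    intro x
    by_contra h
    push Not at h
    exact hcon _ (branch_infinite x) (ContinuousLinearMap.ext h)
  choose z hz using hne
  have hsum : ∀ y, Summable (fun x => e (branch x) y) := he.summable hcard
  have hsumG : ∀ (G : Set (ℕ → Bool)) y, Summable (G.indicator (fun x => e (branch x) y)) :=
    fun G y => (hsum y).indicator G
  let E : Set (ℕ → Bool) → (Y →ₗ[𝕜] Y) := fun G =>
    { toFun := fun y => ∑' x, G.indicator (fun x => e (branch x) y) x
      map_add' := fun y y' => by
        rw [← (hsumG G y).tsum_add (hsumG G y')]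
        congr 1
        ext x
        by_cases hx : x ∈ G <;> simp [hx]
      map_smul' := fun a y => by
        simp only [RingHom.id_apply]
        rw [← (hsumG G y).tsum_const_smul a]
        congr 1
        ext x
        by_cases hx : x ∈ G <;> simp [hx] }
  have hEapp : ∀ G y, E G y = ∑' x, G.indicator (fun x => e (branch x) y) x := fun _ _ => rfl
  have hEbd : ∀ G y, ‖E G y‖ ≤ C * ‖y‖ := by
    intro G y
    have h1 := (hsumG G y).hasSum.norm
    refine le_of_tendsto h1 (Eventually.of_forall ?_)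
    intro F
    have h2 : ∑ x ∈ F, G.indicator (fun x => e (branch x) y) x
        = e (⋃ x ∈ F.filter (fun x => x ∈ G), branch x) y := by
      rw [he.sum_branch, Finset.sum_filter]
      simp only [sum_apply]
      refine Finset.sum_congr rfl (fun x _ => ?_)
      by_cases hx : x ∈ G <;> simp [hx]
    rw [h2]
    calc _ ≤ ‖e (⋃ x ∈ F.filter (fun x => x ∈ G), branch x)‖ * ‖y‖ :=
          ContinuousLinearMap.le_opNorm _ _
      _ ≤ C * ‖y‖ := by gcongr; exact he.bdd _
  let E' : Set (ℕ → Bool) → (Y →L[𝕜] Y) := fun G => (E G).mkContinuous C (hEbd G)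
  have hE'app : ∀ G y, E' G y = ∑' x, G.indicator (fun x => e (branch x) y) x := fun _ _ => rfl
  have horth : ∀ x x' : ℕ → Bool, ∀ y, e (branch x') (e (branch x) y) =
      if x' = x then e (branch x) y else 0 := by
    intro x x' y
    have h1 : e (branch x') (e (branch x) y) = (e (branch x') * e (branch x)) y := rfl
    rw [h1]
    split_ifs with h
    · subst h
      rw [← he.inter, Set.inter_self]
    · rw [he.mul_of_finite (branch_inter_finite h)]
      simp
  have hE'val : ∀ G x y, E' G (e (branch x) y) = if x ∈ G then e (branch x) y else 0 := by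
    intro G x y
    rw [hE'app, tsum_eq_single x]
    · by_cases hx : x ∈ G
      · simp [hx, horth]
      · simp [hx]
    · intro x' hx'
      by_cases hx : x' ∈ G
      · simp [hx, horth, hx']
      · simp [hx]
  have hinj : Function.Injective E' := by
    intro G G' hGG'
    ext x
    have h1 := hE'val G x (z x)
    have h2 := hE'val G' x (z x)
    rw [hGG', h2] at h1
    by_cases hx : x ∈ G <;> by_cases hx' : x ∈ G'
    · simp [hx, hx']
    · rw [if_pos hx, if_neg hx'] at h1
      exact absurd h1.symm (hz x)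
    · rw [if_neg hx, if_pos hx'] at h1
      exact absurd h1 (hz x)
    · simp [hx, hx']
  have h1 := Cardinal.lift_mk_le_lift_mk_of_injective hinj
  have h2 : Cardinal.mk (Set (ℕ → Bool)) = 2 ^ Cardinal.continuum := by
    rw [Cardinal.mk_set]
    congr 1
    simp
  have h3 := (h1.trans (Cardinal.lift_le.mpr hcard'))
  rw [h2, Cardinal.lift_two_power, Cardinal.lift_continuum, Cardinal.lift_continuum] at h3
  exact absurd h3 (not_le.mpr (Cardinal.cantor _))

end Key

end Pool.Agent.Lib.SHAIg
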