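import Mathlib
import Pool.Agent.Lib.MP_b8c7e7_an.GAutoCont
import Pool.Agent.Lib.MP_b8c7e7_an.GKeyLemma

set_option autoImplicit false

namespace Pool.Agent.Lib.SHAIg

open Filter Topology BoundedContinuousFunction

section Glue

variable {K : Type*} [TopologicalSpace K]

theorem glue_continuous (U : ℕ → Set K) (hU : ∀ k, IsClopen (U k))
    (h : ℕ → K → K) (hh : ∀ k, Continuous (h k)) (q : K)
    (hq : ∀ W ∈ 𝓝 q, ∀ᶠ k in atTop, Set.MapsTo (h k) (U k) W) (g : K → K)
    (hg1 : ∀ k, ∀ x ∈ U k, g x = h k x) (hg2 : ∀ x, (∀ k, x ∉ U k) → g x = q) :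
    Continuous g := by
  rw [continuous_iff_continuousAt]
  intro x
  by_cases hx : ∃ k, x ∈ U k
  · obtain ⟨k, hk⟩ := hx
    have h1 : g =ᶠ[𝓝 x] h k := by
      filter_upwards [(hU k).isOpen.mem_nhds hk] with y hy
      exact hg1 k y hy
    exact ((hh k).continuousAt).congr h1.symm
  · push Not at hx
    have hgx := hg2 x hx
    intro W hW
    rw [hgx] at hW
    obtain ⟨N, hN⟩ := eventually_atTop.mp (hq W hW)
    have hopen : IsOpen (⋂ k ∈ Finset.range N, (U k)ᶜ) :=
      isOpen_biInter_finset (fun k _ => (hU k).compl.isOpen)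
    have hmem : x ∈ ⋂ k ∈ Finset.range N, (U k)ᶜ := by
      simp only [Set.mem_iInter]
      intro k _
      exact hx k
    rw [mem_map]
    filter_upwards [hopen.mem_nhds hmem] with y hy
    by_cases hy' : ∃ k, y ∈ U k
    · obtain ⟨k, hk⟩ := hy'
      have hkN : N ≤ k := by
        by_contra hlt
        push Not at hlt
        simp only [Set.mem_iInter] at hy
        exact hy k (Finset.mem_range.mpr hlt) hk
      change g y ∈ W
      rw [hg1 k y hk]
      exact hN k hkN hk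
    · push Not at hy'
      change g y ∈ W
      rw [hg2 y hy']
      exact mem_of_mem_nhds hW

open Classical in
/-- gluing maps along a sequence of disjoint sets -/
noncomputable def glue (U : ℕ → Set K) (h : ℕ → K → K) (q : K) : K → K :=
  fun x => if hx : ∃ k, x ∈ U k then h hx.choose x else q

omit [TopologicalSpace K] in
theorem glue_of_mem {U : ℕ → Set K} (hd : ∀ i j, i ≠ j → Disjoint (U i) (U j))
    (h : ℕ → K → K) (q : K) {k : ℕ} {x : K} (hx : x ∈ U k) : glue U h q x = h k x := by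
  have hex : ∃ k, x ∈ U k := ⟨k, hx⟩
  have h1 : hex.choose = k := by
    by_contra hne
    exact Set.disjoint_left.mp (hd _ _ hne) hex.choose_spec hx
  rw [glue, dif_pos hex, h1]

omit [TopologicalSpace K] in
theorem glue_of_notMem {U : ℕ → Set K} (h : ℕ → K → K) (q : K) {x : K}
    (hx : ∀ k, x ∉ U k) : glue U h q x = q := by
  rw [glue, dif_neg (by push Not; exact hx)]

/-- gluing as a continuous map -/
noncomputable def glueC (U : ℕ → Set K) (hU : ∀ k, IsClopen (U k))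
    (hd : ∀ i j, i ≠ j → Disjoint (U i) (U j))
    (h : ℕ → C(K, K)) (q : K)
    (hq : ∀ W ∈ 𝓝 q, ∀ᶠ k in atTop, Set.MapsTo (h k) (U k) W) : C(K, K) where
  toFun := glue U (fun k => h k) q
  continuous_toFun := glue_continuous U hU (fun k => h k) (fun k => (h k).continuous) q hq _
    (fun _ _ hx => glue_of_mem hd _ q hx) (fun _ hx => glue_of_notMem _ q hx)

theorem glueC_of_mem (U : ℕ → Set K) (hU : ∀ k, IsClopen (U k))
    (hd : ∀ i j, i ≠ j → Disjoint (U i) (U j))
    (h : ℕ → C(K, K)) (q : K)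
    (hq : ∀ W ∈ 𝓝 q, ∀ᶠ k in atTop, Set.MapsTo (h k) (U k) W) {k : ℕ} {x : K} (hx : x ∈ U k) :
    glueC U hU hd h q hq x = h k x := by
  change glue U (fun k => h k) q x = h k x
  exact glue_of_mem hd (fun k => h k) q hx

theorem glueC_of_notMem (U : ℕ → Set K) (hU : ∀ k, IsClopen (U k))
    (hd : ∀ i j, i ≠ j → Disjoint (U i) (U j))
    (h : ℕ → C(K, K)) (q : K)
    (hq : ∀ W ∈ 𝓝 q, ∀ᶠ k in atTop, Set.MapsTo (h k) (U k) W) {x : K} (hx : ∀ k, x ∉ U k) :
    glueC U hU hd h q hq x = q := by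
  change glue U (fun k => h k) q x = q
  exact glue_of_notMem (fun k => h k) q hx

end Glue

section Ops

variable {𝕜 : Type} [RCLike 𝕜]
variable {K : Type*} [TopologicalSpace K]

/-- composition operator -/
noncomputable def compOp (𝕜 : Type) [RCLike 𝕜] (g : C(K, K)) : (K →ᵇ 𝕜) →L[𝕜] (K →ᵇ 𝕜) :=
  compContinuousCLM 𝕜 𝕜 g

theorem compOp_apply (g : C(K, K)) (f : K →ᵇ 𝕜) (x : K) : compOp 𝕜 g f x = f (g x) := rfl

theorem compOp_norm (g : C(K, K)) : ‖compOp 𝕜 g‖ ≤ 1 := by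
  refine ContinuousLinearMap.opNorm_le_bound _ zero_le_one (fun f => ?_)
  rw [one_mul]
  exact f.norm_compContinuous_le g

open Classical in
/-- indicator of a clopen set -/
noncomputable def indB (𝕜 : Type) [RCLike 𝕜] (U : Set K) (hU : IsClopen U) : K →ᵇ 𝕜 :=
  ofNormedAddCommGroup (fun x => if x ∈ U then (1 : 𝕜) else 0)
    (by
      rw [continuous_iff_continuousAt]
      intro x
      by_cases hx : x ∈ U
      · have : (fun x => if x ∈ U then (1 : 𝕜) else 0) =ᶠ[𝓝 x] fun _ => 1 := by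
          filter_upwards [hU.isOpen.mem_nhds hx] with y hy
          simp [hy]
        exact continuousAt_const.congr this.symm
      · have : (fun x => if x ∈ U then (1 : 𝕜) else 0) =ᶠ[𝓝 x] fun _ => 0 := by
          filter_upwards [hU.compl.isOpen.mem_nhds hx] with y hy
          have : y ∉ U := hy
          simp [this]
        exact continuousAt_const.congr this.symm) 1
    (fun x => by split_ifs <;> simp)

open Classical in
theorem indB_apply (U : Set K) (hU : IsClopen U) (x : K) :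
    indB 𝕜 U hU x = if x ∈ U then 1 else 0 := rfl

/-- multiplication operator -/
noncomputable def mulOp (φ : K →ᵇ 𝕜) : (K →ᵇ 𝕜) →L[𝕜] (K →ᵇ 𝕜) :=
  ContinuousLinearMap.mul 𝕜 (K →ᵇ 𝕜) φ

theorem mulOp_apply (φ f : K →ᵇ 𝕜) (x : K) : mulOp φ f x = φ x * f x := rfl

/-- evaluation functional -/
noncomputable def dirac (𝕜 : Type) [RCLike 𝕜] (p : K) : StrongDual 𝕜 (K →ᵇ 𝕜) := evalCLM 𝕜 p

theorem dirac_apply (p : K) (f : K →ᵇ 𝕜) : dirac 𝕜 p f = f p := rfl

/-- embeddability of a piece into another one -/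
def Emb (U V : Set K) : Prop := ∃ h h' : C(K, K), ∀ x ∈ U, h x ∈ V ∧ h' (h x) = x

variable {Y : Type*} [NormedAddCommGroup Y] [NormedSpace 𝕜 Y]

/-- negligible clopen sets -/
def Negl (ψ : ((K →ᵇ 𝕜) →L[𝕜] (K →ᵇ 𝕜)) →ₐ[𝕜] (Y →L[𝕜] Y)) (U : Set K) : Prop :=
  ∃ hU : IsClopen U, ψ (mulOp (indB 𝕜 U hU)) = 0

variable {ψ : ((K →ᵇ 𝕜) →L[𝕜] (K →ᵇ 𝕜)) →ₐ[𝕜] (Y →L[𝕜] Y)}

theorem Negl.emb {U V : Set K} (hV : Negl ψ V) (hU : IsClopen U) (h : Emb U V) : Negl ψ U := by
  obtain ⟨hVc, hV0⟩ := hV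
  obtain ⟨h, h', hh⟩ := h
  refine ⟨hU, ?_⟩
  have : mulOp (indB 𝕜 U hU) = mulOp (indB 𝕜 U hU) * compOp 𝕜 h * mulOp (indB 𝕜 V hVc) * compOp 𝕜 h' := by
    ext f x
    change mulOp (indB 𝕜 U hU) f x
      = mulOp (indB 𝕜 U hU) (compOp 𝕜 h (mulOp (indB 𝕜 V hVc) (compOp 𝕜 h' f))) x
    rw [mulOp_apply, mulOp_apply, compOp_apply, mulOp_apply, compOp_apply, indB_apply, indB_apply]
    by_cases hx : x ∈ U
    · simp [hx, (hh x hx).1, (hh x hx).2]
    · simp [hx]
  rw [this, map_mul, map_mul, map_mul, hV0]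
  simp

theorem Negl.union {U V : Set K} (hU : Negl ψ U) (hV : Negl ψ V) (hd : Disjoint U V) :
    Negl ψ (U ∪ V) := by
  obtain ⟨hUc, hU0⟩ := hU
  obtain ⟨hVc, hV0⟩ := hV
  refine ⟨hUc.union hVc, ?_⟩
  have : mulOp (indB 𝕜 (U ∪ V) (hUc.union hVc)) = mulOp (indB 𝕜 U hUc) + mulOp (indB 𝕜 V hVc) := by
    ext f x
    change mulOp (indB 𝕜 (U ∪ V) _) f x = mulOp (indB 𝕜 U hUc) f x + mulOp (indB 𝕜 V hVc) f x
    rw [mulOp_apply, mulOp_apply, mulOp_apply, indB_apply, indB_apply, indB_apply]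
    by_cases hx : x ∈ U
    · have : x ∉ V := Set.disjoint_left.mp hd hx
      simp [hx, this]
    · by_cases hx' : x ∈ V <;> simp [hx, hx']
  rw [this, map_add, hU0, hV0, add_zero]

/-- a non-injective homomorphism kills rank one operators -/
theorem rankOne_zero (ψ : ((K →ᵇ 𝕜) →L[𝕜] (K →ᵇ 𝕜)) →ₐ[𝕜] (Y →L[𝕜] Y))
    (T : (K →ᵇ 𝕜) →L[𝕜] (K →ᵇ 𝕜)) (hT : T ≠ 0) (hψT : ψ T = 0)
    (l : StrongDual 𝕜 (K →ᵇ 𝕜)) (g : K →ᵇ 𝕜) : ψ (l.smulRight g) = 0 := by
  obtain ⟨u, hu⟩ : ∃ u, T u ≠ 0 := by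
    by_contra h
    push Not at h
    exact hT (ContinuousLinearMap.ext h)
  obtain ⟨x, hx⟩ : ∃ x, T u x ≠ 0 := by
    by_contra h
    push Not at h
    exact hu (BoundedContinuousFunction.ext h)
  have : l.smulRight g =
      ((dirac 𝕜 x).smulRight ((T u x)⁻¹ • g)) * T * (l.smulRight u) := by
    ext f y
    change l f * g y = (dirac 𝕜 x (T (l f • u)) • ((T u x)⁻¹ • g)) y
    rw [dirac_apply, map_smul]
    change l f * g y = (l f * (T u) x) * ((T u x)⁻¹ * g y)
    field_simp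
  rw [this, map_mul, map_mul, hψT]
  simp

theorem Negl.singleton (ψ : ((K →ᵇ 𝕜) →L[𝕜] (K →ᵇ 𝕜)) →ₐ[𝕜] (Y →L[𝕜] Y))
    (T : (K →ᵇ 𝕜) →L[𝕜] (K →ᵇ 𝕜)) (hT : T ≠ 0) (hψT : ψ T = 0) {x : K}
    (hx : IsClopen ({x} : Set K)) : Negl ψ {x} := by
  refine ⟨hx, ?_⟩
  have : mulOp (indB 𝕜 {x} hx) = (dirac 𝕜 x).smulRight (indB 𝕜 {x} hx) := by
    ext f y
    change mulOp (indB 𝕜 {x} hx) f y = dirac 𝕜 x f * indB 𝕜 {x} hx y
    rw [mulOp_apply, indB_apply, dirac_apply]
    by_cases hy : y = x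
    · subst hy; simp
    · simp [hy]
  rw [this]
  exact rankOne_zero ψ T hT hψT _ _

open Classical in
/-- retraction on a union of pieces -/
noncomputable def retr (U : ℕ → Set K) (hU : ∀ k, IsClopen (U k)) (p : K)
    (hp : ∀ W ∈ 𝓝 p, ∀ᶠ k in atTop, U k ⊆ W) (A : Set ℕ) : C(K, K) where
  toFun := fun x => if ∃ k ∈ A, x ∈ U k then x else p
  continuous_toFun := by
    refine glue_continuous (fun k => if k ∈ A then U k else ∅) ?_ (fun _ => id)
      (fun _ => continuous_id) p ?_ _ ?_ ?_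
    · intro k
      by_cases hk : k ∈ A
      · simpa [hk] using hU k
      · simp [hk, isClopen_empty]
    · intro W hW
      filter_upwards [hp W hW] with k hk
      intro x hx
      by_cases hkA : k ∈ A
      · simp only [hkA, if_true] at hx
        exact hk hx
      · simp [hkA] at hx
    · intro k x hx
      by_cases hkA : k ∈ A
      · simp only [hkA, if_true] at hx
        rw [if_pos ⟨k, hkA, hx⟩]
        rfl
      · simp [hkA] at hx
    · intro x hx
      rw [if_neg]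
      rintro ⟨k, hkA, hxk⟩
      have := hx k
      simp only [hkA, if_true] at this
      exact this hxk

open Classical in
theorem retr_apply (U : ℕ → Set K) (hU : ∀ k, IsClopen (U k)) (p : K)
    (hp : ∀ W ∈ 𝓝 p, ∀ᶠ k in atTop, U k ⊆ W) (A : Set ℕ) (x : K) :
    retr U hU p hp A x = if ∃ k ∈ A, x ∈ U k then x else p := rfl

open Classical in
theorem retr_of_mem (U : ℕ → Set K) (hU : ∀ k, IsClopen (U k)) (p : K)
    (hp : ∀ W ∈ 𝓝 p, ∀ᶠ k in atTop, U k ⊆ W) (hd : ∀ i j, i ≠ j → Disjoint (U i) (U j))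
    (A : Set ℕ) {k : ℕ} {x : K} (hk : x ∈ U k) :
    retr U hU p hp A x = if k ∈ A then x else p := by
  have huniq : ∀ j, x ∈ U j → j = k := by
    intro j hj
    by_contra hne
    exact Set.disjoint_left.mp (hd _ _ hne) hj hk
  rw [retr_apply]
  by_cases hA : k ∈ A
  · rw [if_pos hA, if_pos ⟨k, hA, hk⟩]
  · rw [if_neg hA, if_neg]
    rintro ⟨j, hjS, hj⟩
    rw [huniq j hj] at hjS
    exact hA hjS

theorem retr_of_notMem (U : ℕ → Set K) (hU : ∀ k, IsClopen (U k)) (p : K)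
    (hp : ∀ W ∈ 𝓝 p, ∀ᶠ k in atTop, U k ⊆ W) (A : Set ℕ) {x : K} (hx : ∀ k, x ∉ U k) :
    retr U hU p hp A x = p := by
  classical
  rw [retr_apply, if_neg]
  rintro ⟨j, -, hj⟩
  exact hx j hj

theorem negl_seq [CompleteSpace Y] (hψ : Function.Surjective ψ)
    (T : (K →ᵇ 𝕜) →L[𝕜] (K →ᵇ 𝕜)) (hT : T ≠ 0) (hψT : ψ T = 0)
    (hcard : Cardinal.mk (StrongDual 𝕜 Y) ≤ Cardinal.continuum)
    (hcard' : Cardinal.mk (Y →L[𝕜] Y) ≤ Cardinal.continuum)
    (U : ℕ → Set K) (hU : ∀ k, Negl ψ (U k)) (hd : ∀ i j, i ≠ j → Disjoint (U i) (U j))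
    (p : K) (hpU : ∀ k, p ∉ U k) (hp : ∀ W ∈ 𝓝 p, ∀ᶠ k in atTop, U k ⊆ W)
    (hemb : ∀ i j, i ≤ j → Emb (U i) (U j)) (W : Set K) (hW : IsClopen W)
    (hWU : ∀ x ∈ W, x = p ∨ ∃ k, x ∈ U k) : Negl ψ W := by
  classical
  have hUc : ∀ k, IsClopen (U k) := fun k => (hU k).1
  let e : Set ℕ → (Y →L[𝕜] Y) := fun A => ψ (compOp 𝕜 (retr U hUc p hp A))
  have hconst : ψ ((dirac 𝕜 p).smulRight (1 : K →ᵇ 𝕜)) = 0 := rankOne_zero ψ T hT hψT _ _
  obtain ⟨C, hC⟩ := exists_bound (A := (K →ᵇ 𝕜) →L[𝕜] (K →ᵇ 𝕜)) ψ hψ {a | ‖a‖ ≤ 1} (M := 1)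
    (fun a ha => ha)
  have he : BoolIdem e C := by
    refine ⟨?_, ?_, ?_, ?_⟩
    · intro A B
      change ψ _ = ψ _ * ψ _
      rw [← map_mul]
      congr 1
      ext f x
      change f (retr U hUc p hp (A ∩ B) x) = f (retr U hUc p hp B (retr U hUc p hp A x))
      congr 1
      have hpp : ∀ S : Set ℕ, retr U hUc p hp S p = p := fun S =>
        retr_of_notMem U hUc p hp S hpU
      by_cases hx : ∃ k, x ∈ U k
      · obtain ⟨k, hk⟩ := hx
        rw [retr_of_mem U hUc p hp hd A hk, retr_of_mem U hUc p hp hd (A ∩ B) hk]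
        by_cases hA : k ∈ A
        · by_cases hB : k ∈ B
          · rw [if_pos ⟨hA, hB⟩, if_pos hA, retr_of_mem U hUc p hp hd B hk, if_pos hB]
          · rw [if_neg (fun h => hB h.2), if_pos hA, retr_of_mem U hUc p hp hd B hk, if_neg hB]
        · rw [if_neg (fun h => hA h.1), if_neg hA, hpp]
      · push Not at hx
        rw [retr_of_notMem U hUc p hp A hx, hpp, retr_of_notMem U hUc p hp (A ∩ B) hx]
    · intro A B hAB
      change ψ _ = ψ _ + ψ _
      rw [← map_add, ← sub_eq_zero, ← map_sub]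
      have : compOp 𝕜 (retr U hUc p hp (A ∪ B)) -
          (compOp 𝕜 (retr U hUc p hp A) + compOp 𝕜 (retr U hUc p hp B)) =
          - (dirac 𝕜 p).smulRight (1 : K →ᵇ 𝕜) := by
        ext f x
        change f (retr U hUc p hp (A ∪ B) x) -
          (f (retr U hUc p hp A x) + f (retr U hUc p hp B x)) = -(f p * 1)
        by_cases hx : ∃ k, x ∈ U k
        · obtain ⟨k, hk⟩ := hx
          rw [retr_of_mem U hUc p hp hd A hk, retr_of_mem U hUc p hp hd B hk,
            retr_of_mem U hUc p hp hd (A ∪ B) hk]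
          by_cases hA : k ∈ A
          · have hB : k ∉ B := Set.disjoint_left.mp hAB hA
            rw [if_pos (Set.mem_union_left _ hA), if_pos hA, if_neg hB]
            ring
          · by_cases hB : k ∈ B
            · rw [if_pos (Set.mem_union_right _ hB), if_neg hA, if_pos hB]
              ring
            · rw [if_neg (fun h => h.elim hA hB), if_neg hA, if_neg hB]
              ring
        · push Not at hx
          rw [retr_of_notMem U hUc p hp A hx, retr_of_notMem U hUc p hp B hx,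
            retr_of_notMem U hUc p hp (A ∪ B) hx]
          ring
      rw [this, map_neg, hconst, neg_zero]
    · intro A
      exact hC _ (compOp_norm _)
    · intro n
      obtain ⟨hc, h0⟩ := hU n
      change ψ _ = 0
      have : compOp 𝕜 (retr U hUc p hp {n}) =
          mulOp (indB 𝕜 (U n) hc) - (dirac 𝕜 p).smulRight (indB 𝕜 (U n) hc) +
            (dirac 𝕜 p).smulRight (1 : K →ᵇ 𝕜) := by
        ext f x
        change f (retr U hUc p hp {n} x) = indB 𝕜 (U n) hc x * f x - f p * indB 𝕜 (U n) hc x + f p * 1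
        rw [retr_apply, indB_apply]
        by_cases hx : x ∈ U n
        · simp [hx]
        · simp [hx]
      rw [this, map_add, map_sub, h0, hconst, rankOne_zero ψ T hT hψT]
      simp
  obtain ⟨A, hA, hA0⟩ := he.exists_zero hcard hcard'
  let ν : ℕ → ℕ := Nat.nth (· ∈ A)
  have hνA : ∀ i, ν i ∈ A := fun i => Nat.nth_mem_of_infinite hA i
  have hνmono : StrictMono ν := Nat.nth_strictMono hA
  have hνge : ∀ i, i ≤ ν i := hνmono.id_le
  have hemb' : ∀ i, ∃ h h' : C(K, K), ∀ x ∈ U i, h x ∈ U (ν i) ∧ h' (h x) = x := fun i =>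
    hemb i (ν i) (hνge i)
  choose h h' hh using hemb'
  have hb : ∀ W ∈ 𝓝 p, ∀ᶠ k in atTop, Set.MapsTo (h k) (U k) W := by
    intro W hW
    obtain ⟨N, hN⟩ := eventually_atTop.mp (hp W hW)
    filter_upwards [eventually_ge_atTop N] with k hk
    intro x hx
    exact hN (ν k) (hk.trans (hνge k)) (hh k x hx).1
  let V : ℕ → Set K := fun k => U (ν k) ∩ (h' k) ⁻¹' (U k)
  have hVc : ∀ k, IsClopen (V k) := fun k => (hUc _).inter ((hUc k).preimage (h' k).continuous)
  have hVd : ∀ i j, i ≠ j → Disjoint (V i) (V j) := by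
    intro i j hij
    have := hd (ν i) (ν j) (fun heq => hij (hνmono.injective heq))
    exact this.mono Set.inter_subset_left Set.inter_subset_left
  have ha : ∀ W ∈ 𝓝 p, ∀ᶠ k in atTop, Set.MapsTo (h' k) (V k) W := by
    intro W hW
    filter_upwards [hp W hW] with k hk
    intro x hx
    exact hk hx.2
  let b : C(K, K) := glueC U hUc hd h p hb
  let a : C(K, K) := glueC V hVc hVd h' p ha
  have hkey : mulOp (indB 𝕜 W hW) =
      mulOp (indB 𝕜 W hW) * compOp 𝕜 b * compOp 𝕜 (retr U hUc p hp A) * compOp 𝕜 a := by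
    ext f x
    change indB 𝕜 W hW x * f x = indB 𝕜 W hW x * f (a (retr U hUc p hp A (b x)))
    rw [indB_apply]
    by_cases hx : x ∈ W
    · rw [if_pos hx, one_mul, one_mul]
      congr 1
      rcases hWU x hx with rfl | ⟨k, hk⟩
      · have h1 : b x = x := glueC_of_notMem U hUc hd h x hb hpU
        have h2 : retr U hUc x hp A x = x := by
          rw [retr_apply, if_neg]
          rintro ⟨j, -, hj⟩
          exact hpU j hj
        have h3 : a x = x := glueC_of_notMem V hVc hVd h' x ha (fun k hk => hpU _ hk.1)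
        rw [h1, h2, h3]
      · have h1 : b x = h k x := glueC_of_mem U hUc hd h p hb hk
        have h2 : retr U hUc p hp A (h k x) = h k x := by
          rw [retr_apply, if_pos]
          exact ⟨ν k, hνA k, (hh k x hk).1⟩
        have h3 : a (h k x) = h' k (h k x) := by
          refine glueC_of_mem V hVc hVd h' p ha (k := k) ⟨(hh k x hk).1, ?_⟩
          change h' k (h k x) ∈ U k
          rw [(hh k x hk).2]
          exact hk
        rw [h1, h2, h3, (hh k x hk).2]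
    · simp [hx]
  refine ⟨hW, ?_⟩
  have hA0' : ψ (compOp 𝕜 (retr U hUc p hp A)) = 0 := hA0
  rw [hkey, map_mul, map_mul, map_mul, hA0']
  simp

end Ops

end Pool.Agent.Lib.SHAIg
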