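import Mathlib
import Pool.Agent.Lib.MP_b8c7e7_an.GTopo

set_option autoImplicit false

namespace Pool.Agent.Lib.SHAIg

open Filter Topology BoundedContinuousFunction Ordinal

/-- the interval `[0, α]` -/
abbrev KI (α : Ordinal.{0}) : Type 1 := Set.Icc (0 : Ordinal.{0}) α

theorem KI_countable {α : Ordinal.{0}} (hα : α.card ≤ Cardinal.aleph0) : Countable (KI α) := by
  have h1 : Cardinal.mk (Set.Iio (α + 1)) ≤ Cardinal.aleph0 := by
    rw [Cardinal.mk_Iio_ordinal]
    have h2 : (α + 1).card ≤ Cardinal.aleph0 := by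
      rw [Ordinal.card_add]
      refine Cardinal.add_le_aleph0.mpr ⟨hα, ?_⟩
      simp
    have h4 := Cardinal.lift_le.{1}.mpr h2
    rw [Cardinal.lift_aleph0] at h4
    exact h4
  have h2 : Countable (Set.Iio (α + 1)) := Cardinal.mk_le_aleph0_iff.mp h1
  refine Function.Injective.countable
    (f := fun x : KI α => (⟨x.1, ?_⟩ : Set.Iio (α + 1))) ?_
  · have hx : x.1 ≤ α := x.2.2
    exact Order.lt_add_one_iff.mpr hx
  · intro x y hxy
    have := congrArg Subtype.val hxy
    exact Subtype.ext this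

theorem KI_secondCountable {α : Ordinal.{0}} (hα : α.card ≤ Cardinal.aleph0) :
    SecondCountableTopology (KI α) := by
  have := KI_countable hα
  have h1 := (inferInstance : OrderTopology (KI α)).topology_eq_generate_intervals
  rw [h1]
  apply TopologicalSpace.SecondCountableTopology.mk'
  have : {s : Set (KI α) | ∃ a, s = Set.Ioi a ∨ s = Set.Iio a} ⊆
      (Set.range (fun a : KI α => Set.Ioi a)) ∪ (Set.range (fun a : KI α => Set.Iio a)) := by
    rintro s ⟨a, rfl | rfl⟩
    · exact Or.inl ⟨a, rfl⟩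
    · exact Or.inr ⟨a, rfl⟩
  exact Set.Countable.mono this ((Set.countable_range _).union (Set.countable_range _))

theorem mk_rclike_le (𝕜 : Type) [RCLike 𝕜] : Cardinal.mk 𝕜 ≤ Cardinal.continuum := by
  have h : Function.Injective (fun z : 𝕜 => (RCLike.re z, RCLike.im z)) := by
    intro z w hzw
    simp only [Prod.mk.injEq] at hzw
    exact RCLike.ext hzw.1 hzw.2
  refine (Cardinal.mk_le_of_injective h).trans ?_
  rw [Cardinal.mk_prod]
  simp [Cardinal.mk_real]

theorem KI_card (𝕜 : Type) [RCLike 𝕜] {α : Ordinal.{0}} (hα : α.card ≤ Cardinal.aleph0) :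
    Cardinal.mk ((KI α →ᵇ 𝕜) →L[𝕜] (KI α →ᵇ 𝕜)) ≤ Cardinal.continuum := by
  have := KI_countable hα
  have := KI_secondCountable hα
  have h1 : Cardinal.mk (KI α →ᵇ 𝕜) ≤ Cardinal.continuum := by
    have h2 : Cardinal.mk (KI α →ᵇ 𝕜) ≤ Cardinal.mk (KI α → 𝕜) :=
      Cardinal.mk_le_of_injective (f := fun f : KI α →ᵇ 𝕜 => (f : KI α → 𝕜))
        DFunLike.coe_injective
    refine h2.trans ?_
    rw [Cardinal.mk_arrow]
    have h3 : Cardinal.lift.{0} (Cardinal.mk (KI α)) ≤ Cardinal.aleph0 := by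
      simp
    have h4 : Cardinal.lift.{1} (Cardinal.mk 𝕜) ≤ Cardinal.continuum := by
      have := Cardinal.lift_le.{1}.mpr (mk_rclike_le 𝕜)
      rwa [Cardinal.lift_continuum] at this
    calc _ ≤ Cardinal.continuum ^ Cardinal.lift.{0} (Cardinal.mk (KI α)) :=
          Cardinal.power_le_power_right h4
      _ ≤ Cardinal.continuum ^ Cardinal.aleph0 :=
          Cardinal.power_le_power_left Cardinal.continuum_ne_zero h3
      _ = Cardinal.continuum := by simp
  have hsep : TopologicalSpace.SeparableSpace (KI α →ᵇ 𝕜) := by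
    have e := (ContinuousMap.isometryEquivBoundedOfCompact (KI α) 𝕜).toHomeomorph
    have : SecondCountableTopology C(KI α, 𝕜) := inferInstance
    exact (e.surjective.denseRange).separableSpace e.continuous
  obtain ⟨D, hDc, hDd⟩ := TopologicalSpace.exists_countable_dense (KI α →ᵇ 𝕜)
  have : Countable D := hDc
  have hinj : Function.Injective
      (fun (T : (KI α →ᵇ 𝕜) →L[𝕜] (KI α →ᵇ 𝕜)) => (fun d : D => T d)) := by
    intro S T hST
    have h2 : (S : (KI α →ᵇ 𝕜) → (KI α →ᵇ 𝕜)) = T := by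
      refine Continuous.ext_on hDd S.continuous T.continuous ?_
      intro d hd
      exact congrFun hST ⟨d, hd⟩
    exact DFunLike.coe_injective h2
  refine (Cardinal.mk_le_of_injective hinj).trans ?_
  rw [Cardinal.mk_arrow]
  simp only [Cardinal.lift_id]
  calc _ ≤ Cardinal.continuum ^ Cardinal.mk D := Cardinal.power_le_power_right h1
    _ ≤ Cardinal.continuum ^ Cardinal.aleph0 :=
      Cardinal.power_le_power_left Cardinal.continuum_ne_zero Cardinal.mk_le_aleph0
    _ = Cardinal.continuum := by simp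

theorem continuous_sub_left (a : Ordinal.{0}) : Continuous (fun x : Ordinal.{0} => x - a) := by
  rw [OrderTopology.continuous_iff]
  intro c
  constructor
  · have : (fun x : Ordinal.{0} => x - a) ⁻¹' (Set.Ioi c) = Set.Ioi (a + c) := by
      ext x
      simp [Ordinal.lt_sub]
    rw [this]
    exact isOpen_Ioi
  · by_cases hc : c = 0
    · subst hc
      have : (fun x : Ordinal.{0} => x - a) ⁻¹' (Set.Iio 0) = ∅ := by
        ext x
        simp
      rw [this]
      exact isOpen_empty
    · have : (fun x : Ordinal.{0} => x - a) ⁻¹' (Set.Iio c) = Set.Iio (a + c) := by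
        ext x
        simp only [Set.mem_preimage, Set.mem_Iio]
        rcases le_or_gt a x with h | h
        · conv_rhs => rw [← Ordinal.add_sub_cancel_of_le h]
          exact (add_lt_add_iff_left a).symm
        · rw [Ordinal.sub_eq_zero_iff_le.mpr h.le]
          constructor
          · intro _
            exact h.trans_le le_self_add
          · intro _
            exact pos_iff_ne_zero.mpr hc
      rw [this]
      exact isOpen_Iio

/-- truncated left addition on the interval -/
noncomputable def addC {α : Ordinal.{0}} (a : Ordinal.{0}) : C(KI α, KI α) where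
  toFun := fun x => ⟨min (a + x.1) α, Set.mem_Icc.mpr ⟨zero_le, min_le_right _ _⟩⟩
  continuous_toFun := by
    refine Continuous.subtype_mk ?_ _
    exact (((Ordinal.isNormal_add_right a).continuous).comp continuous_subtype_val).min
      continuous_const

/-- left subtraction on the interval -/
noncomputable def subC {α : Ordinal.{0}} (a : Ordinal.{0}) : C(KI α, KI α) where
  toFun := fun x => ⟨x.1 - a, ⟨zero_le, (Ordinal.sub_le_self _ _).trans x.2.2⟩⟩
  continuous_toFun := by
    refine Continuous.subtype_mk ?_ _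
    exact (continuous_sub_left a).comp continuous_subtype_val

/-- half open interval -/
def IocK (α a b : Ordinal.{0}) : Set (KI α) := {x | a < x.1 ∧ x.1 ≤ b}

theorem IocK_clopen (α a b : Ordinal.{0}) : IsClopen (IocK α a b) := by
  constructor
  · have : IocK α a b = Subtype.val ⁻¹' (Set.Icc (a + 1) b) := by
      ext x
      simp [IocK, Order.add_one_le_iff]
    rw [this]
    exact isClosed_Icc.preimage continuous_subtype_val
  · have : IocK α a b = Subtype.val ⁻¹' (Set.Ioo a (b + 1)) := by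
      ext x
      simp [IocK, Order.lt_add_one_iff]
    rw [this]
    exact isOpen_Ioo.preimage continuous_subtype_val

/-- closed initial interval -/
def IicK (α b : Ordinal.{0}) : Set (KI α) := {x | x.1 ≤ b}

theorem IicK_clopen (α b : Ordinal.{0}) : IsClopen (IicK α b) := by
  constructor
  · exact isClosed_Iic.preimage continuous_subtype_val
  · have : IicK α b = Subtype.val ⁻¹' (Set.Iio (b + 1)) := by
      ext x
      simp [IicK, Order.lt_add_one_iff]
    rw [this]
    exact isOpen_Iio.preimage continuous_subtype_val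

/-- the last additively indecomposable summand of a limit ordinal -/
theorem exists_tail {β : Ordinal.{0}} (hβ : Order.IsSuccLimit β) :
    ∃ γ δ : Ordinal.{0}, γ + δ = β ∧ 0 < δ ∧ γ < β ∧
      (∀ a < δ, a + δ = δ) ∧ (∀ a < δ, a + 1 < δ) := by
  have hβ0 : β ≠ 0 := hβ.ne_bot
  have hne : {δ : Ordinal.{0} | δ ≠ 0 ∧ ∃ γ, γ + δ = β}.Nonempty := ⟨β, hβ0, 0, by simp⟩
  obtain ⟨δ, ⟨hδ0, γ, hγ⟩, hmin⟩ :=
    (wellFounded_lt (α := Ordinal.{0})).has_min _ hne
  have hδpos : 0 < δ := pos_iff_ne_zero.mpr hδ0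
  refine ⟨γ, δ, hγ, hδpos, ?_, ?_, ?_⟩
  · rw [← hγ]
    exact lt_add_of_pos_right _ hδpos
  · intro a ha
    have h1 : a + (δ - a) = δ := Ordinal.add_sub_cancel_of_le ha.le
    have h2 : δ - a ≠ 0 := by
      intro h
      rw [h, add_zero] at h1
      exact absurd h1 ha.ne
    have h3 : ¬ (δ - a < δ) := hmin (δ - a) ⟨h2, γ + a, by rw [add_assoc, h1, hγ]⟩
    have h4 : δ - a = δ := le_antisymm (Ordinal.sub_le_self _ _) (not_lt.mp h3)
    rw [h4] at h1
    exact h1
  · intro a ha
    have h1 : γ + a < β := by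
      rw [← hγ]
      exact add_lt_add_right ha γ
    have h2 : γ + a + 1 < β := hβ.add_one_lt h1
    rw [add_assoc, ← hγ] at h2
    exact (add_lt_add_iff_left γ).mp h2

/-- a cofinal sequence of partial sums of a non-decreasing sequence -/
theorem exists_seq {δ : Ordinal.{0}} (hδ : 0 < δ) (hc : δ.card ≤ Cardinal.aleph0)
    (hadd : ∀ a < δ, a + δ = δ) (hsucc : ∀ a < δ, a + 1 < δ) :
    ∃ d e : ℕ → Ordinal.{0}, Monotone d ∧ (∀ k, 0 < d k) ∧ (∀ k, d k < δ) ∧ e 0 = 0 ∧
      (∀ k, e (k + 1) = e k + d k) ∧ (∀ k, e k < δ) ∧ (∀ a < δ, ∃ k, a < e k) := by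
  have hcount : Countable (Set.Iio δ) := by
    have h1 : Cardinal.mk (Set.Iio δ) ≤ Cardinal.aleph0 := by
      rw [Cardinal.mk_Iio_ordinal]
      have h4 := Cardinal.lift_le.{1}.mpr hc
      rw [Cardinal.lift_aleph0] at h4
      exact h4
    exact Cardinal.mk_le_aleph0_iff.mp h1
  have hne : Nonempty (Set.Iio δ) := ⟨⟨0, hδ⟩⟩
  obtain ⟨f, hf⟩ := exists_surjective_nat (Set.Iio δ)
  let d : ℕ → Ordinal.{0} := fun k => (partialSups f k : Set.Iio δ).1 + 1
  have hd1 : ∀ k, d k < δ := fun k => hsucc _ (partialSups f k).2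
  let e : ℕ → Ordinal.{0} := fun n => Nat.rec 0 (fun k x => x + d k) n
  have he : ∀ k, e (k + 1) = e k + d k := fun k => rfl
  have hlt : ∀ k, e k < δ := by
    intro k
    induction k with
    | zero => exact hδ
    | succ k ih =>
      rw [he]
      calc e k + d k < e k + δ := add_lt_add_right (hd1 k) _
        _ = δ := hadd _ ih
  refine ⟨d, e, ?_, ?_, hd1, rfl, he, hlt, ?_⟩
  · intro i j hij
    have : (partialSups f i : Set.Iio δ) ≤ partialSups f j := (partialSups f).monotone hij
    change (partialSups f i : Set.Iio δ).1 + 1 ≤ (partialSups f j : Set.Iio δ).1 + 1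
    exact add_le_add_left (show (partialSups f i : Set.Iio δ).1 ≤ (partialSups f j).1 from this) 1
  · intro k
    exact lt_of_lt_of_le zero_lt_one le_add_self
  · intro a ha
    obtain ⟨k, hk⟩ := hf ⟨a, ha⟩
    refine ⟨k + 1, ?_⟩
    have h1 : f k ≤ partialSups f k := le_partialSups f k
    have h2 : a ≤ (partialSups f k : Set.Iio δ).1 := by
      have : (f k).1 ≤ (partialSups f k : Set.Iio δ).1 := h1
      rw [hk] at this
      exact this
    rw [he]
    calc a < (partialSups f k : Set.Iio δ).1 + 1 := Order.lt_add_one_iff.mpr h2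
      _ = d k := rfl
      _ ≤ e k + d k := le_add_self

section Main

variable {𝕜 : Type} [RCLike 𝕜] {α : Ordinal.{0}}
variable {Y : Type*} [NormedAddCommGroup Y] [NormedSpace 𝕜 Y] [CompleteSpace Y]
variable {ψ : ((KI α →ᵇ 𝕜) →L[𝕜] (KI α →ᵇ 𝕜)) →ₐ[𝕜] (Y →L[𝕜] Y)}

theorem negl_seqOrd (hψ : Function.Surjective ψ)
    (T : (KI α →ᵇ 𝕜) →L[𝕜] (KI α →ᵇ 𝕜)) (hT : T ≠ 0) (hψT : ψ T = 0)
    (hcard : Cardinal.mk (StrongDual 𝕜 Y) ≤ Cardinal.continuum)
    (hcard' : Cardinal.mk (Y →L[𝕜] Y) ≤ Cardinal.continuum)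
    (c : ℕ → Ordinal.{0}) (hc : StrictMono c) (p : KI α) (hcp : ∀ k, c k < p.1)
    (hsup : ∀ a < p.1, ∃ k, a < c k)
    (hU : ∀ k, Negl ψ (IocK α (c k) (c (k + 1))))
    (hemb : ∀ i j, i ≤ j → Emb (IocK α (c i) (c (i + 1))) (IocK α (c j) (c (j + 1)))) :
    Negl ψ (IocK α (c 0) p.1) := by
  refine negl_seq hψ T hT hψT hcard hcard' (fun k => IocK α (c k) (c (k + 1))) hU ?_ p ?_ ?_ hemb
    _ (IocK_clopen _ _ _) ?_
  · have aux : ∀ i j, i < j → Disjoint (IocK α (c i) (c (i + 1))) (IocK α (c j) (c (j + 1))) := by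
      intro i j hij
      refine Set.disjoint_left.mpr ?_
      intro x hx hx'
      have h1 : x.1 ≤ c (i + 1) := hx.2
      have h2 : c (i + 1) ≤ c j := hc.monotone hij
      exact absurd (h1.trans h2) (not_le.mpr hx'.1)
    intro i j hij
    rcases lt_or_gt_of_ne hij with h | h
    · exact aux i j h
    · exact (aux j i h).symm
  · intro k hk
    exact absurd hk.2 (not_le.mpr (hcp _))
  · intro W hW
    obtain ⟨W', hW', hWW'⟩ := mem_nhds_subtype _ _ _ |>.mp hW
    obtain ⟨l, hl, hlW⟩ := exists_Ioc_subset_of_mem_nhds hW' ⟨c 0, hcp 0⟩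
    obtain ⟨N, hN⟩ := hsup l hl
    filter_upwards [eventually_ge_atTop N] with k hk
    intro x hx
    apply hWW'
    apply hlW
    refine ⟨?_, ?_⟩
    · exact hN.trans_le ((hc.monotone hk).trans hx.1.le)
    · exact hx.2.trans (hcp _).le
  · intro x hx
    rcases eq_or_lt_of_le hx.2 with h | h
    · left
      exact Subtype.ext h
    · right
      obtain ⟨k, hk⟩ := hsup x.1 h
      have hex : ∃ m, x.1 ≤ c m := ⟨k, hk.le⟩
      classical
      have h1 := Nat.find_spec hex
      have h2 : Nat.find hex ≠ 0 := by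
        intro h0
        rw [h0] at h1
        exact absurd h1 (not_le.mpr hx.1)
      obtain ⟨m, hm⟩ := Nat.exists_eq_succ_of_ne_zero h2
      refine ⟨m, ?_, ?_⟩
      · have := Nat.find_min hex (m := m) (by omega)
        exact not_le.mp this
      · rw [hm] at h1
        exact h1

theorem negl_IicK (hα : α.card ≤ Cardinal.aleph0) (hψ : Function.Surjective ψ)
    (T : (KI α →ᵇ 𝕜) →L[𝕜] (KI α →ᵇ 𝕜)) (hT : T ≠ 0) (hψT : ψ T = 0)
    (hcard : Cardinal.mk (StrongDual 𝕜 Y) ≤ Cardinal.continuum)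
    (hcard' : Cardinal.mk (Y →L[𝕜] Y) ≤ Cardinal.continuum) (β : Ordinal.{0}) (hβ : β ≤ α) :
    Negl ψ (IicK α β) := by
  induction β using Ordinal.limitRecOn with
  | zero =>
    have h0 : IicK α 0 = {(⟨0, ⟨zero_le, zero_le⟩⟩ : KI α)} := by
      ext x
      simp only [IicK, Set.mem_ofPred_eq, nonpos_iff_eq_zero, Set.mem_singleton_iff]
      constructor
      · intro h; exact Subtype.ext h
      · intro h; rw [h]
    rw [h0]
    refine Negl.singleton ψ T hT hψT ?_
    rw [← h0]
    exact IicK_clopen _ 0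
  | add_one β ih =>
    have hb : β ≤ α := le_self_add.trans hβ
    have hsplit : IicK α (β + 1) = IicK α β ∪ {(⟨β + 1, ⟨zero_le, hβ⟩⟩ : KI α)} := by
      ext x
      simp only [IicK, Set.mem_union, Set.mem_ofPred_eq, Set.mem_singleton_iff]
      constructor
      · intro h
        rcases eq_or_lt_of_le h with h1 | h1
        · right; exact Subtype.ext h1
        · left; exact Order.lt_add_one_iff.mp h1
      · rintro (h | h)
        · exact h.trans le_self_add
        · rw [h]
    have hsing : ({(⟨β + 1, ⟨zero_le, hβ⟩⟩ : KI α)} : Set (KI α)) = IocK α β (β + 1) := by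
      ext x
      simp only [IocK, Set.mem_ofPred_eq, Set.mem_singleton_iff]
      constructor
      · intro h
        rw [h]
        exact ⟨lt_add_one _, le_rfl⟩
      · rintro ⟨h1, h2⟩
        exact Subtype.ext (le_antisymm h2 (Order.add_one_le_iff.mpr h1))
    rw [hsplit]
    refine (ih hb).union (Negl.singleton ψ T hT hψT ?_) ?_
    · rw [hsing]
      exact IocK_clopen _ _ _
    · refine Set.disjoint_left.mpr ?_
      intro x hx hx'
      rw [Set.mem_singleton_iff] at hx'
      rw [hx'] at hx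
      have : β + 1 ≤ β := hx
      exact absurd this (not_le.mpr (lt_add_one _))
  | limit β hlim ih =>
    obtain ⟨γ, δ, hγδ, hδ0, hγβ, hadd, hsucc⟩ := exists_tail hlim
    have hδβ : δ ≤ β := by rw [← hγδ]; exact le_add_self
    have hδc : δ.card ≤ Cardinal.aleph0 := (Ordinal.card_le_card (hδβ.trans hβ)).trans hα
    obtain ⟨d, e, hdm, hd0, hdδ, he0, hes, heδ, hecof⟩ := exists_seq hδ0 hδc hadd hsucc
    let c : ℕ → Ordinal.{0} := fun k => γ + e k
    have hcs : ∀ k, c (k + 1) = c k + d k := by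
      intro k
      change γ + e (k + 1) = γ + e k + d k
      rw [hes, add_assoc]
    have hcβ : ∀ k, c k < β := by
      intro k
      rw [← hγδ]
      exact add_lt_add_right (heδ k) γ
    have hcα : ∀ k, c k < α := fun k => (hcβ k).trans_le hβ
    have key := negl_seqOrd hψ T hT hψT hcard hcard' c ?_ ⟨β, ⟨zero_le, hβ⟩⟩ hcβ ?_ ?_ ?_
    · have hsplit : IicK α β = IicK α γ ∪ IocK α γ β := by
        ext x
        simp only [IicK, IocK, Set.mem_union, Set.mem_ofPred_eq]
        constructor
        · intro h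
          rcases le_or_gt x.1 γ with h0 | h0
          · left; exact h0
          · right; exact ⟨h0, h⟩
        · rintro (h | h)
          · exact h.trans hγβ.le
          · exact h.2
      rw [hsplit]
      refine (ih γ hγβ (hγβ.le.trans hβ)).union ?_ ?_
      · have hc0 : c 0 = γ := by
          change γ + e 0 = γ
          rw [he0, add_zero]
        rw [hc0] at key
        exact key
      · refine Set.disjoint_left.mpr ?_
        intro x hx hx'
        exact absurd hx (not_le.mpr hx'.1)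
    · refine strictMono_nat_of_lt_succ (fun k => ?_)
      rw [hcs]
      exact lt_add_of_pos_right _ (hd0 k)
    · intro a ha
      change a < β at ha
      rw [← hγδ, Ordinal.lt_add_iff hδ0.ne'] at ha
      obtain ⟨b, hb, hab⟩ := ha
      obtain ⟨k, hk⟩ := hecof b hb
      exact ⟨k, hab.trans_lt (add_lt_add_right hk γ)⟩
    · intro k
      refine (ih (d k) ((hdδ k).trans_le hδβ) (((hdδ k).le.trans hδβ).trans hβ)).emb
        (IocK_clopen _ _ _) ⟨subC (c k), addC (c k), ?_⟩
      intro x hx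
      have h1 : c k < x.1 := hx.1
      have h2 : x.1 ≤ c (k + 1) := hx.2
      constructor
      · change x.1 - c k ≤ d k
        rw [Ordinal.sub_le, ← hcs]
        exact h2
      · refine Subtype.ext ?_
        change min (c k + (x.1 - c k)) α = x.1
        rw [Ordinal.add_sub_cancel_of_le h1.le]
        exact min_eq_left x.2.2
    · intro i j hij
      refine ⟨(addC (c j)).comp (subC (c i)), (addC (c i)).comp (subC (c j)), ?_⟩
      intro x hx
      have h1 : c i < x.1 := hx.1
      have h2 : x.1 ≤ c (i + 1) := hx.2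
      have h3 : 0 < x.1 - c i := by
        rw [Ordinal.lt_sub, add_zero]
        exact h1
      have h4 : x.1 - c i ≤ d j := by
        rw [Ordinal.sub_le]
        rw [hcs] at h2
        exact h2.trans (add_le_add_right (hdm hij) _)
      have h5 : c j + (x.1 - c i) ≤ c (j + 1) := by
        rw [hcs]
        exact add_le_add_right h4 _
      have h6 : c j + (x.1 - c i) ≤ α := h5.trans (hcα _).le
      refine ⟨⟨?_, ?_⟩, ?_⟩
      · change c j < min (c j + (x.1 - c i)) α
        rw [min_eq_left h6]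
        exact lt_add_of_pos_right _ h3
      · change min (c j + (x.1 - c i)) α ≤ c (j + 1)
        rw [min_eq_left h6]
        exact h5
      · refine Subtype.ext ?_
        change min (c i + (min (c j + (x.1 - c i)) α - c j)) α = x.1
        rw [min_eq_left h6, Ordinal.add_sub_cancel, Ordinal.add_sub_cancel_of_le h1.le]
        exact min_eq_left x.2.2

theorem main (hα : α.card ≤ Cardinal.aleph0) [Nontrivial Y] (hψ : Function.Surjective ψ) :
    Function.Injective ψ := by
  by_contra hinj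
  obtain ⟨T, hT, hψT⟩ : ∃ T, T ≠ 0 ∧ ψ T = 0 := by
    by_contra h
    push Not at h
    apply hinj
    rw [injective_iff_map_eq_zero]
    intro a ha
    by_contra ha0
    exact h a ha0 ha
  have hcard' : Cardinal.mk (Y →L[𝕜] Y) ≤ Cardinal.continuum := by
    have h1 := Cardinal.lift_mk_le_lift_mk_of_surjective hψ
    have h2 := h1.trans (Cardinal.lift_le.mpr (KI_card 𝕜 hα))
    simpa using h2
  have hcard : Cardinal.mk (StrongDual 𝕜 Y) ≤ Cardinal.continuum := by
    obtain ⟨y, hy⟩ := exists_ne (0 : Y)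
    refine (Cardinal.mk_le_of_injective (f := fun g : StrongDual 𝕜 Y => g.smulRight y) ?_).trans
      hcard'
    intro g g' hgg'
    ext z
    have := congrArg (fun R : Y →L[𝕜] Y => R z) hgg'
    simp only [ContinuousLinearMap.smulRight_apply] at this
    exact smul_left_injective 𝕜 hy this
  have hI := negl_IicK hα hψ T hT hψT hcard hcard' α le_rfl
  have hall : IicK α α = Set.univ := by
    ext x
    simp only [IicK, Set.mem_ofPred_eq, Set.mem_univ, iff_true]
    exact x.2.2
  rw [hall] at hI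
  obtain ⟨hc, h0⟩ := hI
  have hone : mulOp (indB 𝕜 (Set.univ : Set (KI α)) hc) = 1 := by
    ext f x
    change indB 𝕜 (Set.univ : Set (KI α)) hc x * f x = f x
    rw [indB_apply]
    simp
  rw [hone, map_one] at h0
  exact one_ne_zero h0

/-- the version for spaces of continuous functions and non-unital homomorphisms -/
theorem main' (hα : α.card ≤ Cardinal.aleph0) [Nontrivial Y]
    (Ψ : (C(KI α, 𝕜) →L[𝕜] C(KI α, 𝕜)) →ₙₐ[𝕜] (Y →L[𝕜] Y)) (hΨ : Function.Surjective Ψ) :
    Function.Injective Ψ := by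
  let L : C(KI α, 𝕜) ≃L[𝕜] (KI α →ᵇ 𝕜) :=
    (ContinuousMap.linearIsometryBoundedOfCompact (KI α) 𝕜 𝕜).toContinuousLinearEquiv
  let conj : ((KI α →ᵇ 𝕜) →L[𝕜] (KI α →ᵇ 𝕜)) → (C(KI α, 𝕜) →L[𝕜] C(KI α, 𝕜)) := fun T =>
    (L.symm : (KI α →ᵇ 𝕜) →L[𝕜] C(KI α, 𝕜)).comp (T.comp (L : C(KI α, 𝕜) →L[𝕜] (KI α →ᵇ 𝕜)))
  have hconj_mul : ∀ S T, conj (S * T) = conj S * conj T := by
    intro S T
    ext f x
    simp [conj]
  have hconj_add : ∀ S T, conj (S + T) = conj S + conj T := by
    intro S T
    ext f x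
    simp [conj]
  have hconj_smul : ∀ (c : 𝕜) T, conj (c • T) = c • conj T := by
    intro c T
    ext f x
    simp [conj]
  have hconj_surj : ∀ R, ∃ T, conj T = R := by
    intro R
    refine ⟨(L : C(KI α, 𝕜) →L[𝕜] (KI α →ᵇ 𝕜)).comp
      (R.comp (L.symm : (KI α →ᵇ 𝕜) →L[𝕜] C(KI α, 𝕜))), ?_⟩
    ext f x
    simp [conj]
  have hconj_one : conj 1 = 1 := by
    ext f x
    simp [conj]
  have hone : Ψ 1 = 1 := by
    obtain ⟨a, ha⟩ := hΨ 1
    have h1 : Ψ (1 * a) = Ψ 1 * Ψ a := map_mul Ψ 1 a
    rw [one_mul, ha, mul_one] at h1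
    exact h1.symm
  let lin : ((KI α →ᵇ 𝕜) →L[𝕜] (KI α →ᵇ 𝕜)) →ₗ[𝕜] (Y →L[𝕜] Y) :=
    { toFun := fun T => Ψ (conj T)
      map_add' := fun S T => by rw [hconj_add, map_add]
      map_smul' := fun c T => by rw [hconj_smul, map_smul]; rfl }
  let φ : ((KI α →ᵇ 𝕜) →L[𝕜] (KI α →ᵇ 𝕜)) →ₐ[𝕜] (Y →L[𝕜] Y) :=
    AlgHom.ofLinearMap lin (by change Ψ (conj 1) = 1; rw [hconj_one, hone])
      (fun S T => by change Ψ (conj (S * T)) = Ψ (conj S) * Ψ (conj T); rw [hconj_mul, map_mul])
  have hφ : ∀ T, φ T = Ψ (conj T) := fun T => rfl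
  have hφs : Function.Surjective φ := by
    intro R
    obtain ⟨a, ha⟩ := hΨ R
    obtain ⟨T, hT⟩ := hconj_surj a
    exact ⟨T, by rw [hφ, hT, ha]⟩
  have hinj := main hα hφs
  intro a b hab
  obtain ⟨S, hS⟩ := hconj_surj a
  obtain ⟨T, hT⟩ := hconj_surj b
  have : φ S = φ T := by rw [hφ, hφ, hS, hT, hab]
  rw [← hS, ← hT, hinj this]

end Main

end Pool.Agent.Lib.SHAIg
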