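import Mathlib
import Pool.Agent.Lib.MP_b8c7e7_an.Topo

set_option autoImplicit false

namespace Pool.Agent.Lib.SHAI

open Filter Topology BoundedContinuousFunction Ordinal

/-- the interval -/
abbrev KO : Type 1 := Set.Iic (Ordinal.omega0 ^ Ordinal.omega0 : Ordinal.{0})

/-- the top ordinal -/
noncomputable abbrev Om : Ordinal.{0} := Ordinal.omega0 ^ Ordinal.omega0

instance KO_compact : CompactSpace KO := by
  rw [← isCompact_iff_compactSpace]
  have : (Set.Iic (Ordinal.omega0 ^ Ordinal.omega0 : Ordinal.{0})) = Set.Icc 0 Om := by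
    ext x; simp [Om]
  rw [this]
  exact isCompact_Icc

theorem KO_countable : Countable KO := by
  have h1 : Cardinal.mk (Set.Iio (Om + 1)) ≤ Cardinal.aleph0 := by
    rw [Cardinal.mk_Iio_ordinal]
    have h2 : (Om + 1).card ≤ Cardinal.aleph0 := by
      have h3 : Om.card ≤ Cardinal.aleph0 := by
        refine (Ordinal.card_opow_le _ _).trans ?_
        simp
      rw [Ordinal.card_add]
      refine Cardinal.add_le_aleph0.mpr ⟨h3, ?_⟩
      simp
    have h4 := Cardinal.lift_le.{1}.mpr h2
    rw [Cardinal.lift_aleph0] at h4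
    exact h4
  have h2 : Countable (Set.Iio (Om + 1)) := Cardinal.mk_le_aleph0_iff.mp h1
  refine Function.Injective.countable (f := fun x : KO => (⟨x.1, ?_⟩ : Set.Iio (Om + 1))) ?_
  · have hx : x.1 ≤ Om := x.2
    exact Order.lt_add_one_iff.mpr hx
  · intro x y hxy
    have := congrArg Subtype.val hxy
    exact Subtype.ext this

instance KO_orderTopology : OrderTopology KO := inferInstance

theorem KO_secondCountable : SecondCountableTopology KO := by
  have := KO_countable
  have h1 := (inferInstance : OrderTopology KO).topology_eq_generate_intervals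
  rw [h1]
  apply TopologicalSpace.SecondCountableTopology.mk'
  have : {s : Set KO | ∃ a, s = Set.Ioi a ∨ s = Set.Iio a} ⊆
      (Set.range (fun a : KO => Set.Ioi a)) ∪ (Set.range (fun a : KO => Set.Iio a)) := by
    rintro s ⟨a, rfl | rfl⟩
    · exact Or.inl ⟨a, rfl⟩
    · exact Or.inr ⟨a, rfl⟩
  exact Set.Countable.mono this ((Set.countable_range _).union (Set.countable_range _))

theorem KO_card : Cardinal.mk ((KO →ᵇ ℂ) →L[ℂ] (KO →ᵇ ℂ)) ≤ Cardinal.continuum := by
  have := KO_countable
  have := KO_secondCountable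
  have h1 : Cardinal.mk (KO →ᵇ ℂ) ≤ Cardinal.continuum := by
    have h2 : Cardinal.mk (KO →ᵇ ℂ) ≤ Cardinal.mk (KO → ℂ) :=
      Cardinal.mk_le_of_injective (f := fun f : KO →ᵇ ℂ => (f : KO → ℂ)) DFunLike.coe_injective
    refine h2.trans ?_
    rw [Cardinal.mk_arrow]
    have h3 : Cardinal.lift.{0} (Cardinal.mk KO) ≤ Cardinal.aleph0 := by
      simp
    have h4 : Cardinal.lift.{1} (Cardinal.mk ℂ) = Cardinal.continuum := by
      rw [Cardinal.mk_complex, Cardinal.lift_continuum]
    rw [h4]
    calc _ ≤ Cardinal.continuum ^ Cardinal.aleph0 :=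
          Cardinal.power_le_power_left Cardinal.continuum_ne_zero h3
      _ = Cardinal.continuum := by simp
  have hsep : TopologicalSpace.SeparableSpace (KO →ᵇ ℂ) := by
    have e := (ContinuousMap.isometryEquivBoundedOfCompact KO ℂ).toHomeomorph
    have : SecondCountableTopology C(KO, ℂ) := inferInstance
    exact (e.surjective.denseRange).separableSpace e.continuous
  obtain ⟨D, hDc, hDd⟩ := TopologicalSpace.exists_countable_dense (KO →ᵇ ℂ)
  have : Countable D := hDc
  have hinj : Function.Injective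
      (fun (T : (KO →ᵇ ℂ) →L[ℂ] (KO →ᵇ ℂ)) => (fun d : D => T d)) := by
    intro S T hST
    have h2 : (S : (KO →ᵇ ℂ) → (KO →ᵇ ℂ)) = T := by
      refine Continuous.ext_on hDd S.continuous T.continuous ?_
      intro d hd
      exact congrFun hST ⟨d, hd⟩
    exact DFunLike.coe_injective h2
  refine (Cardinal.mk_le_of_injective hinj).trans ?_
  rw [Cardinal.mk_arrow]
  simp only [Cardinal.lift_id]
  calc _ ≤ Cardinal.continuum ^ Cardinal.mk D := Cardinal.power_le_power_right h1
    _ ≤ Cardinal.continuum ^ Cardinal.aleph0 :=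
      Cardinal.power_le_power_left Cardinal.continuum_ne_zero Cardinal.mk_le_aleph0
    _ = Cardinal.continuum := by simp

theorem continuous_sub_left (a : Ordinal.{0}) : Continuous (fun x : Ordinal.{0} => x - a) := by
  rw [OrderTopology.continuous_iff]
  intro c
  constructor
  · have : (fun x : Ordinal.{0} => x - a) ⁻¹' (Set.Ioi c) = Set.Ioi (a + c) := by
      ext x
      simp [Ordinal.lt_sub]
    rw [this]
    exact isOpen_Ioi
  · by_cases hc : c = 0
    · subst hc
      have : (fun x : Ordinal.{0} => x - a) ⁻¹' (Set.Iio 0) = ∅ := by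
        ext x
        simp
      rw [this]
      exact isOpen_empty
    · have : (fun x : Ordinal.{0} => x - a) ⁻¹' (Set.Iio c) = Set.Iio (a + c) := by
        ext x
        simp only [Set.mem_preimage, Set.mem_Iio]
        rcases le_or_gt a x with h | h
        · conv_rhs => rw [← Ordinal.add_sub_cancel_of_le h]
          exact (add_lt_add_iff_left a).symm
        · rw [Ordinal.sub_eq_zero_iff_le.mpr h.le]
          constructor
          · intro _
            exact h.trans_le le_self_add
          · intro _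
            exact pos_iff_ne_zero.mpr hc
      rw [this]
      exact isOpen_Iio

/-- left addition on the interval -/
noncomputable def addC (a : Ordinal.{0}) (ha : a < Om) : C(KO, KO) where
  toFun := fun x => ⟨a + x.1, by
    have h1 : a + x.1 ≤ a + Om := add_le_add_right x.2 a
    rw [Ordinal.add_omega0_opow ha] at h1
    exact h1⟩
  continuous_toFun := by
    refine Continuous.subtype_mk ?_ _
    exact ((Ordinal.isNormal_add_right a).continuous).comp continuous_subtype_val

/-- left subtraction on the interval -/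
noncomputable def subC (a : Ordinal.{0}) : C(KO, KO) where
  toFun := fun x => ⟨x.1 - a, (Ordinal.sub_le_self _ _).trans x.2⟩
  continuous_toFun := by
    refine Continuous.subtype_mk ?_ _
    exact (continuous_sub_left a).comp continuous_subtype_val

/-- half open interval -/
def IocK (a b : Ordinal.{0}) : Set KO := {x | a < x.1 ∧ x.1 ≤ b}

theorem IocK_clopen (a b : Ordinal.{0}) : IsClopen (IocK a b) := by
  constructor
  · have : IocK a b = Subtype.val ⁻¹' (Set.Icc (a + 1) b) := by
      ext x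
      simp [IocK, Order.add_one_le_iff]
    rw [this]
    exact isClosed_Icc.preimage continuous_subtype_val
  · have : IocK a b = Subtype.val ⁻¹' (Set.Ioo a (b + 1)) := by
      ext x
      simp [IocK, Order.lt_add_one_iff]
    rw [this]
    exact isOpen_Ioo.preimage continuous_subtype_val

/-- closed initial interval -/
def IicK (b : Ordinal.{0}) : Set KO := {x | x.1 ≤ b}

theorem IicK_clopen (b : Ordinal.{0}) : IsClopen (IicK b) := by
  constructor
  · exact isClosed_Iic.preimage continuous_subtype_val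
  · have : IicK b = Subtype.val ⁻¹' (Set.Iio (b + 1)) := by
      ext x
      simp [IicK, Order.lt_add_one_iff]
    rw [this]
    exact isOpen_Iio.preimage continuous_subtype_val

section Main

variable {Y : Type} [NormedAddCommGroup Y] [NormedSpace ℂ Y] [CompleteSpace Y]
variable {ψ : ((KO →ᵇ ℂ) →L[ℂ] (KO →ᵇ ℂ)) →ₐ[ℂ] (Y →L[ℂ] Y)}

theorem negl_seqOrd (hψ : Function.Surjective ψ)
    (T : (KO →ᵇ ℂ) →L[ℂ] (KO →ᵇ ℂ)) (hT : T ≠ 0) (hψT : ψ T = 0)
    (hcard : Cardinal.mk (StrongDual ℂ Y) ≤ Cardinal.continuum)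
    (hcard' : Cardinal.mk (Y →L[ℂ] Y) ≤ Cardinal.continuum)
    (c : ℕ → Ordinal.{0}) (hc : StrictMono c) (p : KO) (hcp : ∀ k, c k < p.1)
    (hsup : ∀ a < p.1, ∃ k, a < c k)
    (hU : ∀ k, Negl ψ (IocK (c k) (c (k + 1))))
    (hemb : ∀ i j, i ≤ j → Emb (IocK (c i) (c (i + 1))) (IocK (c j) (c (j + 1)))) :
    Negl ψ (IocK (c 0) p.1) := by
  refine negl_seq hψ T hT hψT hcard hcard' (fun k => IocK (c k) (c (k + 1))) hU ?_ p ?_ ?_ hemb
    _ (IocK_clopen _ _) ?_
  · have aux : ∀ i j, i < j → Disjoint (IocK (c i) (c (i + 1))) (IocK (c j) (c (j + 1))) := by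
      intro i j hij
      refine Set.disjoint_left.mpr ?_
      intro x hx hx'
      have h1 : x.1 ≤ c (i + 1) := hx.2
      have h2 : c (i + 1) ≤ c j := hc.monotone hij
      exact absurd (h1.trans h2) (not_le.mpr hx'.1)
    intro i j hij
    rcases lt_or_gt_of_ne hij with h | h
    · exact aux i j h
    · exact (aux j i h).symm
  · intro k hk
    exact absurd hk.2 (not_le.mpr (hcp _))
  · intro W hW
    obtain ⟨W', hW', hWW'⟩ := mem_nhds_subtype _ _ _ |>.mp hW
    obtain ⟨l, hl, hlW⟩ := exists_Ioc_subset_of_mem_nhds hW' ⟨c 0, hcp 0⟩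
    obtain ⟨N, hN⟩ := hsup l hl
    filter_upwards [eventually_ge_atTop N] with k hk
    intro x hx
    apply hWW'
    apply hlW
    refine ⟨?_, ?_⟩
    · exact hN.trans_le ((hc.monotone hk).trans hx.1.le)
    · exact hx.2.trans (hcp _).le
  · intro x hx
    rcases eq_or_lt_of_le hx.2 with h | h
    · left
      exact Subtype.ext h
    · right
      obtain ⟨k, hk⟩ := hsup x.1 h
      have hex : ∃ m, x.1 ≤ c m := ⟨k, hk.le⟩
      classical
      have h1 := Nat.find_spec hex
      have h2 : Nat.find hex ≠ 0 := by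
        intro h0
        rw [h0] at h1
        exact absurd h1 (not_le.mpr hx.1)
      obtain ⟨m, hm⟩ := Nat.exists_eq_succ_of_ne_zero h2
      refine ⟨m, ?_, ?_⟩
      · have := Nat.find_min hex (m := m) (by omega)
        exact not_le.mp this
      · rw [hm] at h1
        exact h1

theorem negl_IicK (hψ : Function.Surjective ψ)
    (T : (KO →ᵇ ℂ) →L[ℂ] (KO →ᵇ ℂ)) (hT : T ≠ 0) (hψT : ψ T = 0)
    (hcard : Cardinal.mk (StrongDual ℂ Y) ≤ Cardinal.continuum)
    (hcard' : Cardinal.mk (Y →L[ℂ] Y) ≤ Cardinal.continuum) (n : ℕ) :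
    Negl ψ (IicK (ω ^ (n : Ordinal.{0}))) := by
  have hz : Negl ψ (IicK 0) := by
    have h0 : IicK 0 = {(⟨0, by simp⟩ : KO)} := by
      ext x
      simp only [IicK, Set.mem_ofPred_eq, nonpos_iff_eq_zero, Set.mem_singleton_iff]
      constructor
      · intro h; exact Subtype.ext h
      · intro h; rw [h]
    rw [h0]
    refine Negl.singleton ψ T hT hψT ?_
    rw [← h0]
    exact IicK_clopen 0
  have hsplit : ∀ b : Ordinal.{0}, IicK b = IicK 0 ∪ IocK 0 b := by
    intro b
    ext x
    simp only [IicK, IocK, Set.mem_union, Set.mem_ofPred_eq]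
    constructor
    · intro h
      rcases eq_or_ne x.1 0 with h0 | h0
      · left; rw [h0]
      · right; exact ⟨pos_iff_ne_zero.mpr h0, h⟩
    · rintro (h | h)
      · exact h.trans zero_le
      · exact h.2
  have hdis : ∀ b : Ordinal.{0}, Disjoint (IicK 0) (IocK 0 b) := by
    intro b
    refine Set.disjoint_left.mpr ?_
    intro x hx hx'
    exact absurd hx (not_le.mpr hx'.1)
  induction n with
  | zero =>
    rw [hsplit]
    refine hz.union ?_ (hdis _)
    have h1 : IocK 0 (ω ^ ((0 : ℕ) : Ordinal.{0})) = {(⟨1, by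
        have : (1 : Ordinal.{0}) = ω ^ (0 : Ordinal.{0}) := by simp
        rw [Set.mem_Iic, this]
        exact Ordinal.opow_le_opow_right Ordinal.omega0_pos zero_le⟩ : KO)} := by
      ext x
      simp only [IocK, Nat.cast_zero, opow_zero, Set.mem_ofPred_eq, Set.mem_singleton_iff]
      constructor
      · rintro ⟨h1, h2⟩
        refine Subtype.ext ?_
        exact le_antisymm h2 (Order.one_le_iff_pos.mpr h1)
      · intro h; rw [h]; simp
    rw [h1]
    refine Negl.singleton ψ T hT hψT ?_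
    rw [← h1]
    exact IocK_clopen _ _
  | succ n ih =>
    rw [hsplit]
    refine hz.union ?_ (hdis _)
    have hlt : ω ^ ((n + 1 : ℕ) : Ordinal.{0}) < Om :=
      (Ordinal.opow_lt_opow_iff_right Ordinal.one_lt_omega0).mpr (Ordinal.natCast_lt_omega0 _)
    have hpos : (0 : Ordinal.{0}) < ω ^ (n : Ordinal.{0}) := Ordinal.opow_pos _ Ordinal.omega0_pos
    have hmul : ω ^ ((n + 1 : ℕ) : Ordinal.{0}) = ω ^ (n : Ordinal.{0}) * ω := by
      rw [Nat.cast_add, Nat.cast_one, Ordinal.opow_add, Ordinal.opow_one]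
    have hcp : ∀ k : ℕ, ω ^ (n : Ordinal.{0}) * (k : Ordinal.{0}) <
        ω ^ ((n + 1 : ℕ) : Ordinal.{0}) := by
      intro k
      rw [hmul]
      exact mul_lt_mul_of_pos_left (Ordinal.natCast_lt_omega0 _) hpos
    have hsucc : ∀ k : ℕ, ω ^ (n : Ordinal.{0}) * ((k + 1 : ℕ) : Ordinal.{0}) =
        ω ^ (n : Ordinal.{0}) * (k : Ordinal.{0}) + ω ^ (n : Ordinal.{0}) := by
      intro k
      rw [Nat.cast_add, Nat.cast_one, mul_add, mul_one]
    have key := negl_seqOrd hψ T hT hψT hcard hcard'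
      (fun k : ℕ => ω ^ (n : Ordinal.{0}) * (k : Ordinal.{0})) ?_
      ⟨ω ^ ((n + 1 : ℕ) : Ordinal.{0}), hlt.le⟩ hcp ?_ ?_ ?_
    · simpa using key
    · refine strictMono_nat_of_lt_succ (fun k => ?_)
      refine mul_lt_mul_of_pos_left ?_ hpos
      exact_mod_cast Nat.lt_succ_self k
    · intro a ha
      change a < ω ^ ((n + 1 : ℕ) : Ordinal.{0}) at ha
      rw [hmul, Ordinal.lt_mul_iff_of_isSuccLimit Ordinal.isSuccLimit_omega0] at ha
      obtain ⟨c, hc, hac⟩ := ha
      obtain ⟨k, rfl⟩ := Ordinal.lt_omega0.mp hc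
      exact ⟨k, hac⟩
    · intro k
      refine ih.emb (IocK_clopen _ _) ⟨subC (ω ^ (n : Ordinal.{0}) * (k : Ordinal.{0})),
        addC _ ((hcp k).trans hlt), ?_⟩
      intro x hx
      have h1 : ω ^ (n : Ordinal.{0}) * (k : Ordinal.{0}) < x.1 := hx.1
      have h2 : x.1 ≤ ω ^ (n : Ordinal.{0}) * ((k + 1 : ℕ) : Ordinal.{0}) := hx.2
      constructor
      · change x.1 - ω ^ (n : Ordinal.{0}) * (k : Ordinal.{0}) ≤ ω ^ (n : Ordinal.{0})
        rw [Ordinal.sub_le, ← hsucc]
        exact h2
      · refine Subtype.ext ?_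
        exact Ordinal.add_sub_cancel_of_le h1.le
    · intro i j _
      refine ⟨(addC _ ((hcp j).trans hlt)).comp (subC (ω ^ (n : Ordinal.{0}) * (i : Ordinal.{0}))),
        (addC _ ((hcp i).trans hlt)).comp (subC (ω ^ (n : Ordinal.{0}) * (j : Ordinal.{0}))), ?_⟩
      intro x hx
      have h1 : ω ^ (n : Ordinal.{0}) * (i : Ordinal.{0}) < x.1 := hx.1
      have h2 : x.1 ≤ ω ^ (n : Ordinal.{0}) * ((i + 1 : ℕ) : Ordinal.{0}) := hx.2
      have h3 : 0 < x.1 - ω ^ (n : Ordinal.{0}) * (i : Ordinal.{0}) := by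
        rw [Ordinal.lt_sub, add_zero]
        exact h1
      have h4 : x.1 - ω ^ (n : Ordinal.{0}) * (i : Ordinal.{0}) ≤ ω ^ (n : Ordinal.{0}) := by
        rw [Ordinal.sub_le, ← hsucc]
        exact h2
      refine ⟨⟨?_, ?_⟩, ?_⟩
      · change ω ^ (n : Ordinal.{0}) * (j : Ordinal.{0}) < ω ^ (n : Ordinal.{0}) * (j : Ordinal.{0})
          + (x.1 - ω ^ (n : Ordinal.{0}) * (i : Ordinal.{0}))
        exact lt_add_of_pos_right _ h3
      · change ω ^ (n : Ordinal.{0}) * (j : Ordinal.{0})
          + (x.1 - ω ^ (n : Ordinal.{0}) * (i : Ordinal.{0})) ≤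
          ω ^ (n : Ordinal.{0}) * ((j + 1 : ℕ) : Ordinal.{0})
        rw [hsucc]
        exact add_le_add_right h4 _
      · refine Subtype.ext ?_
        change ω ^ (n : Ordinal.{0}) * (i : Ordinal.{0}) +
          (ω ^ (n : Ordinal.{0}) * (j : Ordinal.{0})
          + (x.1 - ω ^ (n : Ordinal.{0}) * (i : Ordinal.{0}))
          - ω ^ (n : Ordinal.{0}) * (j : Ordinal.{0})) = x.1
        rw [Ordinal.add_sub_cancel, Ordinal.add_sub_cancel_of_le h1.le]

theorem main [Nontrivial Y] (hψ : Function.Surjective ψ) : Function.Injective ψ := by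
  by_contra hinj
  obtain ⟨T, hT, hψT⟩ : ∃ T, T ≠ 0 ∧ ψ T = 0 := by
    by_contra h
    push Not at h
    apply hinj
    rw [injective_iff_map_eq_zero]
    intro a ha
    by_contra ha0
    exact h a ha0 ha
  have hcard' : Cardinal.mk (Y →L[ℂ] Y) ≤ Cardinal.continuum := by
    have h1 := Cardinal.lift_mk_le_lift_mk_of_surjective hψ
    have h2 := h1.trans (Cardinal.lift_le.mpr KO_card)
    simpa using h2
  have hcard : Cardinal.mk (StrongDual ℂ Y) ≤ Cardinal.continuum := by
    obtain ⟨y, hy⟩ := exists_ne (0 : Y)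
    refine (Cardinal.mk_le_of_injective (f := fun g : StrongDual ℂ Y => g.smulRight y) ?_).trans
      hcard'
    intro g g' hgg'
    ext z
    have := congrArg (fun R : Y →L[ℂ] Y => R z) hgg'
    simp only [ContinuousLinearMap.smulRight_apply] at this
    exact smul_left_injective ℂ hy this
  have hI := negl_IicK hψ T hT hψT hcard hcard'
  have hlt : ∀ n : ℕ, ω ^ (n : Ordinal.{0}) < Om := fun n =>
    (Ordinal.opow_lt_opow_iff_right Ordinal.one_lt_omega0).mpr (Ordinal.natCast_lt_omega0 _)
  have hmono : StrictMono (fun k : ℕ => ω ^ (k : Ordinal.{0})) := by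
    intro i j hij
    refine (Ordinal.opow_lt_opow_iff_right Ordinal.one_lt_omega0).mpr ?_
    exact_mod_cast hij
  have key : Negl ψ (IocK (ω ^ ((0 : ℕ) : Ordinal.{0})) Om) := by
    refine negl_seqOrd hψ T hT hψT hcard hcard' (fun k : ℕ => ω ^ (k : Ordinal.{0})) hmono
      ⟨Om, Set.mem_Iic.mpr le_rfl⟩ hlt ?_ ?_ ?_
    · intro a ha
      change a < ω ^ ω at ha
      rw [Ordinal.lt_opow_of_isSuccLimit Ordinal.omega0_ne_zero Ordinal.isSuccLimit_omega0] at ha
      obtain ⟨c, hc, hac⟩ := ha
      obtain ⟨k, rfl⟩ := Ordinal.lt_omega0.mp hc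
      exact ⟨k, hac⟩
    · intro k
      refine (hI (k + 1)).emb (IocK_clopen _ _) ⟨ContinuousMap.id _, ContinuousMap.id _, ?_⟩
      intro x hx
      exact ⟨hx.2, rfl⟩
    · intro i j hij
      refine ⟨addC (ω ^ (j : Ordinal.{0})) (hlt j), subC (ω ^ (j : Ordinal.{0})), ?_⟩
      intro x hx
      have h1 : ω ^ (i : Ordinal.{0}) < x.1 := hx.1
      have h2 : x.1 ≤ ω ^ ((i + 1 : ℕ) : Ordinal.{0}) := hx.2
      have h3 : 0 < x.1 := zero_le.trans_lt h1
      refine ⟨⟨?_, ?_⟩, ?_⟩
      · change ω ^ (j : Ordinal.{0}) < ω ^ (j : Ordinal.{0}) + x.1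
        exact lt_add_of_pos_right _ h3
      · change ω ^ (j : Ordinal.{0}) + x.1 ≤ ω ^ ((j + 1 : ℕ) : Ordinal.{0})
        have h4 : x.1 ≤ ω ^ ((j + 1 : ℕ) : Ordinal.{0}) :=
          h2.trans (hmono.monotone (by omega))
        have h5 := add_le_add_right h4 (ω ^ (j : Ordinal.{0}))
        rwa [Ordinal.add_omega0_opow (hmono (Nat.lt_succ_self j))] at h5
      · refine Subtype.ext ?_
        exact Ordinal.add_sub_cancel _ _
  have hall : Negl ψ (Set.univ : Set KO) := by
    have h1 : (Set.univ : Set KO) = IicK (ω ^ ((0 : ℕ) : Ordinal.{0})) ∪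
        IocK (ω ^ ((0 : ℕ) : Ordinal.{0})) Om := by
      ext x
      simp only [Set.mem_univ, IicK, IocK, Set.mem_union, Set.mem_ofPred_eq, true_iff]
      rcases le_or_gt x.1 (ω ^ ((0 : ℕ) : Ordinal.{0})) with h | h
      · exact Or.inl h
      · exact Or.inr ⟨h, x.2⟩
    rw [h1]
    refine (hI 0).union key ?_
    refine Set.disjoint_left.mpr ?_
    intro x hx hx'
    exact absurd hx (not_le.mpr hx'.1)
  obtain ⟨hc, h0⟩ := hall
  have hone : mulOp (indB (Set.univ : Set KO) hc) = 1 := by
    ext f x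
    change indB (Set.univ : Set KO) hc x * f x = f x
    rw [indB_apply]
    simp
  rw [hone, map_one] at h0
  exact one_ne_zero h0

end Main

end Pool.Agent.Lib.SHAI
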